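import Mathlib

/-!
# Majorisation and convex functions

`MajP v w`: all sums `∑ (v i - s)_+` (`s ≥ 0`) are at most those of `w`, and the totals agree.
-/

set_option autoImplicit false

namespace Pool.Agent.H380FC

open Finset

/-- majorisation of vectors of possibly different lengths (padded by zeros) -/
def Maj {ι κ : Type} [Fintype ι] [Fintype κ] (v : ι → ℝ) (w : κ → ℝ) : Prop :=
  (∀ S : Finset ι, ∃ T : Finset κ, T.card ≤ S.card ∧ ∑ i ∈ S, v i ≤ ∑ j ∈ T, w j) ∧
    ∑ i, v i = ∑ j, w j

/-- the form with positive parts -/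
def MajP {ι κ : Type} [Fintype ι] [Fintype κ] (v : ι → ℝ) (w : κ → ℝ) : Prop :=
  (∀ s : ℝ, 0 ≤ s → ∑ i, max (v i - s) 0 ≤ ∑ j, max (w j - s) 0) ∧ ∑ i, v i = ∑ j, w j

variable {ι κ : Type} [Fintype ι] [Fintype κ]

theorem Maj.toP {v : ι → ℝ} {w : κ → ℝ} (h : Maj v w) : MajP v w := by
  classical
  refine ⟨fun s hs => ?_, h.2⟩
  obtain ⟨T, hT, hST⟩ := h.1 (univ.filter (fun i => s < v i))
  have h1 : ∑ i, max (v i - s) 0 = ∑ i ∈ univ.filter (fun i => s < v i), (v i - s) := by
    rw [sum_filter]
    refine sum_congr rfl fun i _ => ?_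
    split_ifs with hi
    · exact max_eq_left (by linarith)
    · exact max_eq_right (by linarith)
  have h2 : ∑ j ∈ T, (w j - s) ≤ ∑ j, max (w j - s) 0 :=
    le_trans (sum_le_sum fun j _ => le_max_left _ _)
      (sum_le_sum_of_subset_of_nonneg (subset_univ _) fun j _ _ => le_max_right _ _)
  rw [h1, sum_sub_distrib, sum_const, nsmul_eq_mul]
  rw [sum_sub_distrib, sum_const, nsmul_eq_mul] at h2
  have h3 : (T.card : ℝ) * s ≤ ((univ.filter (fun i => s < v i)).card : ℝ) * s := by
    apply mul_le_mul_of_nonneg_right _ hs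
    exact_mod_cast hT
  linarith

/-- piecewise linear interpolation of a convex function -/
theorem pl_aux (φ : ℝ → ℝ) (D : Set ℝ) (hφ : ConvexOn ℝ D φ) (F : Finset ℝ) : (∀ x ∈ F, x ∈ D) →
    (F.card ≤ 1 ∨ ∃ (a c : ℝ) (u : ℝ → ℝ), (∀ s, 0 ≤ u s) ∧
      (∀ t ∈ F, φ t = a + c * t + ∑ s ∈ F, u s * max (t - s) 0) ∧
      (∀ t ∈ D, (∀ s ∈ F, s ≤ t) → a + c * t + ∑ s ∈ F, u s * max (t - s) 0 ≤ φ t)) := by
  classical
  induction F using Finset.induction_on_max with
  | empty => intro _; left; simp
  | insert m F hm ih =>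
    intro hD
    have hmF : m ∉ F := fun h => lt_irrefl _ (hm m h)
    have hmD : m ∈ D := hD m (mem_insert_self _ _)
    have hFD : ∀ x ∈ F, x ∈ D := fun x hx => hD x (mem_insert_of_mem hx)
    -- the chord inequality
    have key : ∀ M ∈ D, M < m → ∀ t ∈ D, m ≤ t →
        φ M + (φ m - φ M) / (m - M) * (t - M) ≤ φ t := by
      intro M hM hMm t ht hmt
      rcases eq_or_lt_of_le hmt with h | h
      · subst h
        have : (φ m - φ M) / (m - M) * (m - M) = φ m - φ M := by
          field_simp [sub_ne_zero.2 hMm.ne']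
        linarith
      · have h1 := hφ.slope_mono_adjacent hM ht hMm h
        have h2 : (φ m - φ M) / (m - M) * (t - m) ≤ φ t - φ m := by
          rw [le_div_iff₀ (by linarith)] at h1
          exact h1
        have h3 : (φ m - φ M) / (m - M) * (m - M) = φ m - φ M := by
          field_simp [sub_ne_zero.2 hMm.ne']
        nlinarith
    rcases Nat.lt_or_ge F.card 1 with h0 | h1
    · left
      rw [card_insert_of_notMem hmF]
      omega
    right
    rcases Nat.eq_or_lt_of_le h1 with h1 | h1
    · -- one point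
      obtain ⟨M, hM⟩ := card_eq_one.1 h1.symm
      subst hM
      have hMm : M < m := hm M (mem_singleton_self _)
      have hMD : M ∈ D := hFD M (mem_singleton_self _)
      refine ⟨φ M - (φ m - φ M) / (m - M) * M, (φ m - φ M) / (m - M), fun _ => 0,
        fun _ => le_rfl, ?_, ?_⟩
      · intro t ht
        simp only [mem_insert, mem_singleton] at ht
        rcases ht with rfl | rfl
        · have h3 : (φ t - φ M) / (t - M) * (t - M) = φ t - φ M := by
            field_simp [sub_ne_zero.2 hMm.ne']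
          simp only [zero_mul, sum_const_zero]
          linarith
        · simp only [zero_mul, sum_const_zero]
          ring
      · intro t ht hs
        have := key M hMD hMm t ht (hs m (mem_insert_self _ _))
        simp only [zero_mul, sum_const_zero]
        linarith
    · rcases ih hFD with h | ⟨a, c, u, hu, h2, h3⟩
      · omega
      have hne : F.Nonempty := card_pos.1 (by omega)
      set M := F.max' hne with hMdef
      have hMF : M ∈ F := F.max'_mem hne
      have hMD : M ∈ D := hFD M hMF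
      have hMm : M < m := hm M hMF
      have hle : ∀ s ∈ F, s ≤ M := fun s hs => F.le_max' s hs
      -- value beyond `M`
      have hlin : ∀ t, M ≤ t → ∑ s ∈ F, u s * max (t - s) 0 =
          (∑ s ∈ F, u s) * t - ∑ s ∈ F, u s * s := by
        intro t ht
        rw [sum_mul, ← sum_sub_distrib]
        refine sum_congr rfl fun s hs => ?_
        rw [max_eq_left (by have := hle s hs; linarith)]
        ring
      have hMval := h2 M hMF
      rw [hlin M le_rfl] at hMval
      have hmval := h3 m hmD (fun s hs => (hm s hs).le)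
      rw [hlin m hMm.le] at hmval
      set U := ∑ s ∈ F, u s with hU
      set V := ∑ s ∈ F, u s * s with hV
      set γ := (φ m - (a + c * m + (U * m - V))) / (m - M) with hγ
      have hγ0 : 0 ≤ γ := div_nonneg (by linarith) (by linarith)
      have hγm : γ * (m - M) = φ m - (a + c * m + (U * m - V)) := by
        rw [hγ]; field_simp [sub_ne_zero.2 hMm.ne']
      have hsum : ∀ t, ∑ s ∈ insert m F, (if s = m then 0 else if s = M then u M + γ else u s) *
          max (t - s) 0 = ∑ s ∈ F, u s * max (t - s) 0 + γ * max (t - M) 0 := by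
        intro t
        rw [sum_insert hmF, if_pos rfl, zero_mul, zero_add]
        have : ∀ s ∈ F, (if s = m then 0 else if s = M then u M + γ else u s) * max (t - s) 0 =
            u s * max (t - s) 0 + if s = M then γ * max (t - M) 0 else 0 := by
          intro s hs
          have hsm : s ≠ m := (hm s hs).ne
          rw [if_neg hsm]
          split_ifs with h
          · rw [h]; ring
          · ring
        rw [sum_congr rfl this, sum_add_distrib, sum_ite_eq' F M, if_pos hMF]
      refine ⟨a, c, fun s => if s = m then 0 else if s = M then u M + γ else u s, ?_, ?_, ?_⟩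
      · intro s
        dsimp only
        split_ifs
        · exact le_rfl
        · exact add_nonneg (hu M) hγ0
        · exact hu s
      · intro t ht
        rw [hsum]
        rcases mem_insert.1 ht with rfl | ht
        · rw [hlin t hMm.le, max_eq_left (by linarith)]
          linarith
        · rw [h2 t ht, max_eq_right (by have := hle t ht; linarith)]
          ring
      · intro t ht hs
        have hmt : m ≤ t := hs m (mem_insert_self _ _)
        rw [hsum, hlin t (by linarith), max_eq_left (by linarith)]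
        have h4 := key M hMD hMm t ht hmt
        have h5 : (φ m - φ M) / (m - M) = c + U + γ := by
          rw [div_eq_iff (by linarith)]
          nlinarith
        rw [h5] at h4
        nlinarith

theorem pl_repr (φ : ℝ → ℝ) (D : Set ℝ) (hφ : ConvexOn ℝ D φ) (F : Finset ℝ)
    (hF : ∀ x ∈ F, x ∈ D) : ∃ (a c : ℝ) (u : ℝ → ℝ), (∀ s, 0 ≤ u s) ∧
      (∀ t ∈ F, φ t = a + c * t + ∑ s ∈ F, u s * max (t - s) 0) := by
  rcases pl_aux φ D hφ F hF with h | ⟨a, c, u, h1, h2, -⟩
  · rcases Nat.eq_zero_or_pos F.card with h0 | h0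
    · rw [card_eq_zero] at h0
      subst h0
      exact ⟨0, 0, fun _ => 0, fun _ => le_rfl, by simp⟩
    · obtain ⟨p, hp⟩ := card_eq_one.1 (le_antisymm h h0)
      subst hp
      refine ⟨φ p, 0, fun _ => 0, fun _ => le_rfl, fun t ht => ?_⟩
      rw [mem_singleton] at ht
      subst ht
      simp
  · exact ⟨a, c, u, h1, h2⟩

/-- convex functions vanishing at `0` -/
theorem schur0 {v : ι → ℝ} {w : κ → ℝ} (h : MajP v w) (hv : ∀ i, v i ∈ Set.Icc (0 : ℝ) 1)
    (hw : ∀ j, w j ∈ Set.Icc (0 : ℝ) 1) (φ : ℝ → ℝ) (hφ : ConvexOn ℝ (Set.Icc 0 1) φ)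
    (h0 : φ 0 = 0) : ∑ i, φ (v i) ≤ ∑ j, φ (w j) := by
  classical
  obtain ⟨a, c, u, hu, hr⟩ := pl_repr φ _ hφ (insert 0 (univ.image v ∪ univ.image w)) (by
    intro x hx
    rcases mem_insert.1 hx with rfl | hx
    · exact ⟨le_rfl, zero_le_one⟩
    rcases mem_union.1 hx with hx | hx
    · obtain ⟨i, -, rfl⟩ := mem_image.1 hx
      exact hv i
    · obtain ⟨i, -, rfl⟩ := mem_image.1 hx
      exact hw i)
  set F := insert 0 (univ.image v ∪ univ.image w) with hF
  have hF0 : ∀ s ∈ F, 0 ≤ s := by
    intro x hx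
    rcases mem_insert.1 hx with rfl | hx
    · exact le_rfl
    rcases mem_union.1 hx with hx | hx
    · obtain ⟨i, -, rfl⟩ := mem_image.1 hx
      exact (hv i).1
    · obtain ⟨i, -, rfl⟩ := mem_image.1 hx
      exact (hw i).1
  have ha : a = 0 := by
    have h1 := hr 0 (mem_insert_self _ _)
    rw [h0, mul_zero, add_zero] at h1
    have h2 : ∑ s ∈ F, u s * max (0 - s) 0 = 0 := by
      apply sum_eq_zero
      intro s hs
      rw [max_eq_right (by have := hF0 s hs; linarith), mul_zero]
    linarith
  subst ha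
  have hvs : ∑ i, φ (v i) = c * ∑ i, v i + ∑ s ∈ F, u s * ∑ i, max (v i - s) 0 := by
    rw [sum_congr rfl fun i _ => hr (v i)
      (mem_insert_of_mem (mem_union_left _ (mem_image_of_mem _ (mem_univ _))))]
    simp only [zero_add]
    rw [sum_add_distrib, ← mul_sum, sum_comm]
    simp only [mul_sum]
  have hws : ∑ j, φ (w j) = c * ∑ j, w j + ∑ s ∈ F, u s * ∑ j, max (w j - s) 0 := by
    rw [sum_congr rfl fun i _ => hr (w i)
      (mem_insert_of_mem (mem_union_right _ (mem_image_of_mem _ (mem_univ _))))]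
    simp only [zero_add]
    rw [sum_add_distrib, ← mul_sum, sum_comm]
    simp only [mul_sum]
  rw [hvs, hws, h.2]
  apply add_le_add_right
  exact sum_le_sum fun s hs => mul_le_mul_of_nonneg_left (h.1 s (hF0 s hs)) (hu s)

open Classical in
/-- the number of nonzero entries -/
noncomputable def rk (v : ι → ℝ) : ℕ := (univ.filter (fun i => v i ≠ 0)).card

open Classical in
/-- convex functions on `(0, 1]`, equal numbers of nonzero entries -/
theorem schur1 {v : ι → ℝ} {w : κ → ℝ} (h : MajP v w) (hv : ∀ i, v i ∈ Set.Icc (0 : ℝ) 1)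
    (hw : ∀ j, w j ∈ Set.Icc (0 : ℝ) 1) (hrk : rk v = rk w) (φ : ℝ → ℝ)
    (hφ : ConvexOn ℝ (Set.Ioc 0 1) φ) :
    ∑ i ∈ univ.filter (fun i => v i ≠ 0), φ (v i) ≤
      ∑ j ∈ univ.filter (fun j => w j ≠ 0), φ (w j) := by
  set A := univ.filter (fun i => v i ≠ 0) with hA
  set B := univ.filter (fun j => w j ≠ 0) with hB
  have hvA : ∀ i ∈ A, v i ∈ Set.Ioc (0 : ℝ) 1 := fun i hi =>
    ⟨lt_of_le_of_ne (hv i).1 (mem_filter.1 hi).2.symm, (hv i).2⟩
  have hwB : ∀ i ∈ B, w i ∈ Set.Ioc (0 : ℝ) 1 := fun i hi =>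
    ⟨lt_of_le_of_ne (hw i).1 (mem_filter.1 hi).2.symm, (hw i).2⟩
  obtain ⟨a, c, u, hu, hr⟩ := pl_repr φ _ hφ (A.image v ∪ B.image w) (by
    intro x hx
    rcases mem_union.1 hx with hx | hx
    · obtain ⟨i, hi, rfl⟩ := mem_image.1 hx
      exact hvA i hi
    · obtain ⟨i, hi, rfl⟩ := mem_image.1 hx
      exact hwB i hi)
  set F := A.image v ∪ B.image w with hF
  have hF0 : ∀ s ∈ F, 0 ≤ s := by
    intro x hx
    rcases mem_union.1 hx with hx | hx
    · obtain ⟨i, hi, rfl⟩ := mem_image.1 hx
      exact (hv i).1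
    · obtain ⟨i, hi, rfl⟩ := mem_image.1 hx
      exact (hw i).1
  have e1 : ∑ i ∈ A, v i = ∑ i, v i := by
    rw [hA, sum_filter]
    refine sum_congr rfl fun i _ => ?_
    split_ifs with h
    · rfl
    · push Not at h
      exact h.symm
  have e2 : ∑ i ∈ B, w i = ∑ i, w i := by
    rw [hB, sum_filter]
    refine sum_congr rfl fun i _ => ?_
    split_ifs with h
    · rfl
    · push Not at h
      exact h.symm
  have e3 : ∀ s, 0 ≤ s → ∑ i ∈ A, max (v i - s) 0 = ∑ i, max (v i - s) 0 := by
    intro s hs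
    rw [hA, sum_filter]
    refine sum_congr rfl fun i _ => ?_
    split_ifs with h
    · rfl
    · push Not at h
      rw [h, max_eq_right (by linarith)]
  have e4 : ∀ s, 0 ≤ s → ∑ i ∈ B, max (w i - s) 0 = ∑ i, max (w i - s) 0 := by
    intro s hs
    rw [hB, sum_filter]
    refine sum_congr rfl fun i _ => ?_
    split_ifs with h
    · rfl
    · push Not at h
      rw [h, max_eq_right (by linarith)]
  have hvs : ∑ i ∈ A, φ (v i) = A.card * a + c * ∑ i, v i +
      ∑ s ∈ F, u s * ∑ i, max (v i - s) 0 := by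
    rw [sum_congr rfl fun i hi => hr (v i) (mem_union_left _ (mem_image_of_mem _ hi))]
    rw [sum_add_distrib, sum_add_distrib, ← mul_sum, sum_comm, e1, sum_const, nsmul_eq_mul]
    congr 1
    refine sum_congr rfl fun s hs => ?_
    rw [← mul_sum, e3 s (hF0 s hs)]
  have hws : ∑ i ∈ B, φ (w i) = B.card * a + c * ∑ i, w i +
      ∑ s ∈ F, u s * ∑ i, max (w i - s) 0 := by
    rw [sum_congr rfl fun i hi => hr (w i) (mem_union_right _ (mem_image_of_mem _ hi))]
    rw [sum_add_distrib, sum_add_distrib, ← mul_sum, sum_comm, e2, sum_const, nsmul_eq_mul]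
    congr 1
    refine sum_congr rfl fun s hs => ?_
    rw [← mul_sum, e4 s (hF0 s hs)]
  have hc : A.card = B.card := hrk
  rw [hvs, hws, h.2, hc]
  apply add_le_add_right
  exact sum_le_sum fun s hs => mul_le_mul_of_nonneg_left (h.1 s (hF0 s hs)) (hu s)

end Pool.Agent.H380FC
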