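import Mathlib
import Pool.Agent.H380FC.B

/-!
# Power sums determine a vector; ranks; exponents `r ≤ 0`
-/

set_option autoImplicit false

namespace Pool.Agent.H380FC

open Finset

variable {ι κ α β : Type} [Fintype ι] [Fintype κ] [Fintype α] [Fintype β]

open Classical in
/-- the same nonzero entries -/
def SameC (v : ι → ℝ) (w : κ → ℝ) : Prop :=
  ∀ t : ℝ, 0 < t → (univ.filter (fun i => v i = t)).card = (univ.filter (fun j => w j = t)).card

open Classical in
theorem same_of_pow {v : ι → ℝ} {w : κ → ℝ} (K : ℕ)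
    (h : ∀ k : ℕ, K ≤ k → ∑ i, v i ^ k = ∑ j, w j ^ k) : SameC v w := by
  intro t ht
  set V : Finset ℝ := univ.image v ∪ univ.image w with hV
  set c : ℝ → ℝ := fun t => ((univ.filter (fun i => v i = t)).card : ℝ) -
    ((univ.filter (fun j => w j = t)).card : ℝ) with hc
  have hv : ∀ k : ℕ, ∑ i, v i ^ k = ∑ t ∈ V, ((univ.filter (fun i => v i = t)).card : ℝ) * t ^ k := by
    intro k
    rw [← sum_fiberwise_of_maps_to (s := univ) (t := V) (g := v) (f := fun i => v i ^ k)
      (fun i _ => mem_union_left _ (mem_image_of_mem _ (mem_univ _)))]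
    refine sum_congr rfl fun t _ => ?_
    rw [sum_congr rfl (fun i hi => by rw [(mem_filter.1 hi).2] : ∀ i ∈ univ.filter
      (fun i => v i = t), v i ^ k = t ^ k), sum_const, nsmul_eq_mul]
  have hw : ∀ k : ℕ, ∑ i, w i ^ k = ∑ t ∈ V, ((univ.filter (fun i => w i = t)).card : ℝ) * t ^ k := by
    intro k
    rw [← sum_fiberwise_of_maps_to (s := univ) (t := V) (g := w) (f := fun i => w i ^ k)
      (fun i _ => mem_union_right _ (mem_image_of_mem _ (mem_univ _)))]
    refine sum_congr rfl fun t _ => ?_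
    rw [sum_congr rfl (fun i hi => by rw [(mem_filter.1 hi).2] : ∀ i ∈ univ.filter
      (fun i => w i = t), w i ^ k = t ^ k), sum_const, nsmul_eq_mul]
  have hzero : ∀ k : ℕ, K ≤ k → ∑ t ∈ V, c t * t ^ k = 0 := by
    intro k hk
    have h1 := h k hk
    rw [hv, hw] at h1
    rw [hc]
    simp only [sub_mul, sum_sub_distrib]
    linarith
  by_cases htV : t ∈ V
  · set f : Fin V.card → ℝ := fun i => (V.equivFin.symm i : ℝ) with hf
    have hfi : Function.Injective f := by
      intro i j hij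
      exact V.equivFin.symm.injective (Subtype.ext hij)
    have h2 := Matrix.eq_zero_of_forall_pow_sum_mul_pow_eq_zero (f := f)
      (v := fun j => c (f j) * f j ^ K) hfi (by
        intro i
        have h3 : ∑ j : Fin V.card, c (f j) * f j ^ K * f j ^ (i : ℕ) =
            ∑ t ∈ V, c t * t ^ (K + i) := by
          rw [← sum_coe_sort V (fun t => c t * t ^ (K + (i : ℕ)))]
          rw [← V.equivFin.symm.sum_comp (fun t : V => c t * (t : ℝ) ^ (K + (i : ℕ)))]
          refine sum_congr rfl fun j _ => ?_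
          rw [pow_add, mul_assoc]
        rw [h3]
        exact hzero _ (by omega))
    have h4 := congrFun h2 (V.equivFin ⟨t, htV⟩)
    have h5 : f (V.equivFin ⟨t, htV⟩) = t := by simp [hf]
    simp only [h5, Pi.zero_apply] at h4
    have h6 : c t = 0 := by
      rcases mul_eq_zero.1 h4 with h | h
      · exact h
      · exact absurd h (pow_pos ht K).ne'
    have h7 : ((univ.filter (fun i => v i = t)).card : ℝ) =
        ((univ.filter (fun j => w j = t)).card : ℝ) := sub_eq_zero.1 h6
    exact_mod_cast h7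
  · have h1 : univ.filter (fun i => v i = t) = ∅ := by
      apply filter_eq_empty_iff.2
      intro i _ hi
      exact htV (mem_union_left _ (hi ▸ mem_image_of_mem _ (mem_univ _)))
    have h2 : univ.filter (fun i => w i = t) = ∅ := by
      apply filter_eq_empty_iff.2
      intro i _ hi
      exact htV (mem_union_right _ (hi ▸ mem_image_of_mem _ (mem_univ _)))
    rw [h1, h2]
    simp

open Classical in
/-- the same nonzero entries: majorised -/
theorem maj_of_same {v : ι → ℝ} {w : κ → ℝ} (hv : ∀ i, 0 ≤ v i) (h : SameC v w)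
    (hs : ∑ i, v i = ∑ j, w j) : Maj v w := by
  refine ⟨fun S => ?_, hs⟩
  set S' := S.filter (fun i => 0 < v i) with hS'
  have hex : ∀ t : ℝ, 0 < t → ∃ T ⊆ univ.filter (fun j => w j = t),
      T.card = (S.filter (fun i => v i = t)).card := by
    intro t ht
    apply exists_subset_card_eq
    rw [← h t ht]
    exact card_le_card (filter_subset_filter _ (subset_univ _))
  choose! T hT hTc using hex
  set V := S'.image v with hV
  have hVpos : ∀ t ∈ V, 0 < t := by
    intro t ht
    obtain ⟨i, hi, rfl⟩ := mem_image.1 ht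
    exact (mem_filter.1 hi).2
  have hTw : ∀ t ∈ V, ∀ j ∈ T t, w j = t := fun t ht j hj =>
    (mem_filter.1 (hT t (hVpos t ht) hj)).2
  have hdisj : Set.PairwiseDisjoint (↑V : Set ℝ) T := by
    intro t ht t' ht' hne
    rw [Function.onFun, Finset.disjoint_left]
    intro j hj hj'
    exact hne ((hTw t ht j hj).symm.trans (hTw t' ht' j hj'))
  have hfib : ∀ t ∈ V, S'.filter (fun i => v i = t) = S.filter (fun i => v i = t) := by
    intro t ht
    ext i
    simp only [hS', mem_filter]
    constructor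
    · rintro ⟨⟨h1, h2⟩, h3⟩
      exact ⟨h1, h3⟩
    · rintro ⟨h1, h3⟩
      exact ⟨⟨h1, h3 ▸ hVpos t ht⟩, h3⟩
  refine ⟨V.biUnion T, ?_, ?_⟩
  · rw [card_biUnion (fun t ht t' ht' hne => hdisj ht ht' hne)]
    have h1 : S'.card = ∑ t ∈ V, (S'.filter (fun i => v i = t)).card :=
      card_eq_sum_card_fiberwise (fun i hi => mem_image_of_mem _ hi)
    calc ∑ t ∈ V, (T t).card = ∑ t ∈ V, (S'.filter (fun i => v i = t)).card := by
          refine sum_congr rfl fun t ht => ?_
          rw [hTc t (hVpos t ht), hfib t ht]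
      _ = S'.card := h1.symm
      _ ≤ S.card := card_le_card (filter_subset _ _)
  · rw [sum_biUnion hdisj]
    have h2 : ∑ i ∈ S, v i = ∑ i ∈ S', v i := by
      rw [hS', sum_filter]
      refine sum_congr rfl fun i _ => ?_
      split_ifs with hi
      · rfl
      · exact le_antisymm (not_lt.1 hi) (hv i)
    rw [h2, ← sum_fiberwise_of_maps_to (s := S') (t := V) (g := v) (f := fun i => v i)
      (fun i hi => mem_image_of_mem _ hi)]
    apply le_of_eq
    refine sum_congr rfl fun t ht => ?_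
    rw [sum_congr rfl (fun i hi => (mem_filter.1 hi).2 : ∀ i ∈ S'.filter
      (fun i => v i = t), v i = t), sum_const, sum_congr rfl (hTw t ht), sum_const,
      hTc t (hVpos t ht), hfib t ht]

/-! ### ranks -/

theorem exists_small (v : ι → ℝ) (hv : ∀ i, 0 ≤ v i) : ∃ s : ℝ, 0 < s ∧ ∀ i, v i ≠ 0 → s ≤ v i := by
  classical
  set F := insert 1 ((univ.filter (fun i => v i ≠ 0)).image v) with hF
  have hne : F.Nonempty := ⟨1, mem_insert_self _ _⟩
  refine ⟨F.min' hne, ?_, fun i hi => F.min'_le _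
    (mem_insert_of_mem (mem_image_of_mem _ (mem_filter.2 ⟨mem_univ _, hi⟩)))⟩
  have h1 := F.min'_mem hne
  rcases mem_insert.1 h1 with h | h
  · rw [h]; exact one_pos
  · obtain ⟨i, hi, h2⟩ := mem_image.1 h
    rw [← h2]
    exact lt_of_le_of_ne (hv i) (mem_filter.1 hi).2.symm

open Classical in
theorem sum_max_small {v : ι → ℝ} (hv : PV v) (s : ℝ) (hs : 0 < s) (h : ∀ i, v i ≠ 0 → s ≤ v i) :
    ∑ i, max (v i - s) 0 = 1 - rk v * s := by
  have h1 : ∀ i, max (v i - s) 0 = v i - if v i ≠ 0 then s else 0 := by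
    intro i
    split_ifs with hi
    · exact max_eq_left (by have := h i hi; linarith)
    · push Not at hi
      rw [hi, max_eq_right (by linarith)]
      ring
  rw [sum_congr rfl fun i _ => h1 i, sum_sub_distrib, hv.2, ← sum_filter, sum_const, nsmul_eq_mul]
  rfl

theorem rk_le {v : ι → ℝ} {w : κ → ℝ} (hv : PV v) (hw : PV w) (h : MajP v w) : rk w ≤ rk v := by
  obtain ⟨s, hs, h1⟩ := exists_small v hv.1
  obtain ⟨s', hs', h2⟩ := exists_small w hw.1
  set m := min s s'
  have hm : 0 < m := lt_min hs hs'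
  have h3 := h.1 m hm.le
  rw [sum_max_small hv m hm (fun i hi => (min_le_left _ _).trans (h1 i hi)),
    sum_max_small hw m hm (fun i hi => (min_le_right _ _).trans (h2 i hi))] at h3
  have h4 : (rk w : ℝ) * m ≤ rk v * m := by linarith
  have h5 := le_of_mul_le_mul_right h4 hm
  exact_mod_cast h5

open Classical in
theorem filter_tens (v : ι → ℝ) (w : κ → ℝ) :
    univ.filter (fun p => tens v w p ≠ 0) =
      (univ.filter (fun i => v i ≠ 0)) ×ˢ (univ.filter (fun j => w j ≠ 0)) := by
  ext ⟨i, j⟩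
  simp only [mem_filter, mem_univ, true_and, mem_product, tens]
  exact (mul_ne_zero_iff : v i * w j ≠ 0 ↔ _)

theorem rk_tens (v : ι → ℝ) (w : κ → ℝ) : rk (tens v w) = rk v * rk w := by
  classical
  unfold rk
  rw [filter_tens, card_product]

theorem rk_pos {v : ι → ℝ} (hv : PV v) : 0 < rk v := by
  classical
  obtain ⟨i, hi⟩ := hv.exists_pos
  exact card_pos.2 ⟨i, mem_filter.2 ⟨mem_univ _, hi.ne'⟩⟩

open Classical in
/-- sums over the nonzero entries -/
noncomputable def nz (f : ℝ → ℝ) (v : ι → ℝ) : ℝ := ∑ i ∈ univ.filter (fun i => v i ≠ 0), f (v i)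

theorem nz_pow (v : ι → ℝ) (k : ℕ) (hk : 2 ≤ k) : nz (fun t => t ^ k) v = ∑ i, v i ^ k := by
  classical
  unfold nz
  rw [sum_filter]
  refine sum_congr rfl fun i _ => ?_
  split_ifs with h
  · rfl
  · push Not at h
    rw [h, zero_pow (by omega)]

theorem nz_tens_pow (v : ι → ℝ) (w : κ → ℝ) (k : ℕ) (hk : 2 ≤ k) :
    nz (fun t => t ^ k) (tens v w) = (∑ i, v i ^ k) * ∑ j, w j ^ k := by
  rw [nz_pow _ _ hk, sum_tens_pow]

theorem nz_tens_rpow {v : ι → ℝ} {w : κ → ℝ} (hv : PV v) (hw : PV w) (r : ℝ) :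
    nz (fun t => t ^ r) (tens v w) = nz (fun t => t ^ r) v * nz (fun t => t ^ r) w := by
  classical
  unfold nz
  rw [filter_tens, sum_product, sum_mul_sum]
  exact sum_congr rfl fun i _ => sum_congr rfl fun j _ => Real.mul_rpow (hv.1 i) (hw.1 j)

theorem nz_tens_log (v : ι → ℝ) (w : κ → ℝ) :
    nz Real.log (tens v w) = rk w * nz Real.log v + rk v * nz Real.log w := by
  classical
  unfold nz rk
  rw [filter_tens, sum_product]
  have : ∀ i ∈ univ.filter (fun i => v i ≠ 0), ∑ j ∈ univ.filter (fun j => w j ≠ 0),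
      Real.log (tens v w (i, j)) = (univ.filter (fun j => w j ≠ 0)).card * Real.log (v i) +
        ∑ j ∈ univ.filter (fun j => w j ≠ 0), Real.log (w j) := by
    intro i hi
    rw [← nsmul_eq_mul, ← sum_const, ← sum_add_distrib]
    exact sum_congr rfl fun j hj =>
      Real.log_mul (mem_filter.1 hi).2 (mem_filter.1 hj).2
  rw [sum_congr rfl this, sum_add_distrib, sum_const, nsmul_eq_mul, ← mul_sum]

theorem nz_rpow_pos {v : ι → ℝ} (hv : PV v) (r : ℝ) : 0 < nz (fun t => t ^ r) v := by
  classical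
  obtain ⟨i, hi⟩ := hv.exists_pos
  unfold nz
  exact lt_of_lt_of_le (Real.rpow_pos_of_pos hi r)
    (single_le_sum (f := fun i => v i ^ r) (fun j _ => Real.rpow_nonneg (hv.1 j) r)
      (mem_filter.2 ⟨mem_univ _, hi.ne'⟩))

section chain

variable {x : α → ℝ} {y : β → ℝ} (hx : PV x) (hy : PV y) {γ : ℕ → Type} [∀ n, Fintype (γ n)]
  {e : ∀ n, γ n → ℝ} (he : ∀ n, PV (e n)) (hm : ∀ n, MajP (tens x (e n)) (tens y (e (n + 1))))
  (hrk : rk x = rk y) (K : ℕ) (hK : ∀ n, rk (e n) = K) (c : ℝ) (hc : 0 < c)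
  (hce : ∀ n i, e n i ≠ 0 → c ≤ e n i)

include hx hy he hm hrk hK hc hce

/-- exponents `r < 0`, constant rank, entries bounded below -/
theorem core4 (r : ℝ) (hr : r < 0) (h : nz (fun t => t ^ r) y ≤ nz (fun t => t ^ r) x) (k : ℕ)
    (hk : 2 ≤ k) : ∑ i, y i ^ k ≤ ∑ i, x i ^ k := by
  set X := nz (fun t => t ^ r) x
  set Y := nz (fun t => t ^ r) y
  have hX : 0 < X := nz_rpow_pos hx r
  have hk2 : (2 : ℝ) ≤ k := by exact_mod_cast hk
  set B : ℝ := k * (k - 1) / (r * (r - 1)) with hB
  have hB0 : 0 ≤ B := div_nonneg (by nlinarith) (by nlinarith)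
  refine tele (fun n => ∑ i, e n i ^ k) (fun n => -(B * X * nz (fun t => t ^ r) (e n))) _ _
    (c ^ k) (-(B * X * (K * c ^ r))) (_root_.pow_pos hc k) (hy.pow_pos k).le
    (fun n => pow_lower (he n) hc ?_ k) ?_ ?_
  · obtain ⟨i, hi⟩ := (he n).exists_pos
    exact ⟨i, hce n i hi.ne'⟩
  · intro n
    have h1 : nz (fun t => t ^ r) (e n) ≤ K * c ^ r := by
      classical
      unfold nz
      rw [← hK n, rk, ← nsmul_eq_mul, ← sum_const]
      exact sum_le_sum fun i hi =>
        Real.rpow_le_rpow_of_nonpos hc (hce n i (mem_filter.1 hi).2) hr.le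
    have h2 := mul_le_mul_of_nonneg_left h1 (mul_nonneg hB0 hX.le)
    linarith
  · intro n
    have h1 := schur1 (hm n) (hx.tens (he n)).mem (hy.tens (he (n + 1))).mem
      (by rw [rk_tens, rk_tens, hrk, hK, hK]) _
      (psi_conv r k hk (by linarith) (by linarith) (by linarith) _ (Or.inr rfl))
    simp only [sum_sub_distrib, ← mul_sum] at h1
    have h2 := nz_tens_rpow hx (he n) r
    have h3 := nz_tens_rpow hy (he (n + 1)) r
    have h4 := nz_tens_pow x (e n) k hk
    have h5 := nz_tens_pow y (e (n + 1)) k hk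
    unfold nz at h2 h3 h4 h5
    rw [h2, h3, h4, h5] at h1
    have h6 : B * (Y * nz (fun t => t ^ r) (e (n + 1))) ≤
        B * (X * nz (fun t => t ^ r) (e (n + 1))) :=
      mul_le_mul_of_nonneg_left
        (mul_le_mul_of_nonneg_right h (nz_rpow_pos (he (n + 1)) r).le) hB0
    simp only [X, Y, nz, hB] at h6 ⊢
    nlinarith

/-- the logarithm, constant rank, entries bounded below -/
theorem core5 (h : nz Real.log x ≤ nz Real.log y) (k : ℕ)
    (hk : 2 ≤ k) : ∑ i, y i ^ k ≤ ∑ i, x i ^ k := by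
  have hk2 : (2 : ℝ) ≤ k := by exact_mod_cast hk
  set B : ℝ := k * (k - 1) with hB
  have hB0 : 0 ≤ B := by rw [hB]; nlinarith
  have hc1 : ∀ n, (K : ℝ) * Real.log c ≤ nz Real.log (e n) := by
    intro n
    classical
    unfold nz
    rw [← hK n, rk, ← nsmul_eq_mul, ← sum_const]
    exact sum_le_sum fun i hi => Real.log_le_log hc (hce n i (mem_filter.1 hi).2)
  refine tele (fun n => ∑ i, e n i ^ k) (fun n => B * (rk x * nz Real.log (e n))) _ _
    (c ^ k) (B * (rk x * (K * Real.log c))) (_root_.pow_pos hc k) (hy.pow_pos k).le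
    (fun n => pow_lower (he n) hc ?_ k) ?_ ?_
  · obtain ⟨i, hi⟩ := (he n).exists_pos
    exact ⟨i, hce n i hi.ne'⟩
  · intro n
    exact mul_le_mul_of_nonneg_left
      (mul_le_mul_of_nonneg_left (hc1 n) (Nat.cast_nonneg _)) hB0
  · intro n
    have h1 := schur1 (hm n) (hx.tens (he n)).mem (hy.tens (he (n + 1))).mem
      (by rw [rk_tens, rk_tens, hrk, hK, hK]) _ (psi_conv_log k hk)
    simp only [sum_sub_distrib, ← mul_sum] at h1
    have h2 := nz_tens_log x (e n)
    have h3 := nz_tens_log y (e (n + 1))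
    have h4 := nz_tens_pow x (e n) k hk
    have h5 := nz_tens_pow y (e (n + 1)) k hk
    have e2 : ∑ i ∈ univ.filter (fun p => tens x (e n) p ≠ 0), Real.log (tens x (e n) i) =
        nz Real.log (tens x (e n)) := by unfold nz; congr
    have e3 : ∑ i ∈ univ.filter (fun p => tens y (e (n + 1)) p ≠ 0),
        Real.log (tens y (e (n + 1)) i) = nz Real.log (tens y (e (n + 1))) := by unfold nz; congr
    have e4 : ∑ i ∈ univ.filter (fun p => tens x (e n) p ≠ 0), tens x (e n) i ^ k =
        nz (fun t => t ^ k) (tens x (e n)) := by unfold nz; congr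
    have e5 : ∑ i ∈ univ.filter (fun p => tens y (e (n + 1)) p ≠ 0),
        tens y (e (n + 1)) i ^ k = nz (fun t => t ^ k) (tens y (e (n + 1))) := by unfold nz; congr
    have h1' : -B * nz Real.log (tens x (e n)) - nz (fun t => t ^ k) (tens x (e n)) ≤
        -B * nz Real.log (tens y (e (n + 1))) - nz (fun t => t ^ k) (tens y (e (n + 1))) := by
      rw [← e2, ← e3, ← e4, ← e5]
      exact h1
    rw [h2, h3, h4, h5, hK, hK, ← hrk] at h1'
    have h6 : B * (K * nz Real.log x) ≤ B * (K * nz Real.log y) :=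
      mul_le_mul_of_nonneg_left (mul_le_mul_of_nonneg_left h (Nat.cast_nonneg _)) hB0
    nlinarith

end chain

end Pool.Agent.H380FC
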