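import Mathlib
import Pool.Agent.H380FC.D

/-!
# All necessary conditions for a chain
-/

set_option autoImplicit false

namespace Pool.Agent.H380FC

open Finset

variable {α β : Type} [Fintype α] [Fintype β]

/-- the conditions of Klimesh and Turgut -/
def KTc (x : α → ℝ) (y : β → ℝ) : Prop :=
  (∀ r : ℝ, 1 < r → ∑ i, x i ^ r < ∑ j, y j ^ r) ∧
  ∑ j, Real.negMulLog (y j) < ∑ i, Real.negMulLog (x i) ∧
  (∀ r : ℝ, 0 < r → r < 1 → ∑ j, y j ^ r < ∑ i, x i ^ r) ∧
  (rk y < rk x ∨ (rk y = rk x ∧ nz Real.log y < nz Real.log x ∧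
    ∀ r : ℝ, r < 0 → nz (fun t => t ^ r) x < nz (fun t => t ^ r) y))

theorem chain_conditions {x : α → ℝ} {y : β → ℝ} (hx : PV x) (hy : PV y) {γ : ℕ → Type}
    [∀ n, Fintype (γ n)] {e : ∀ n, γ n → ℝ} (he : ∀ n, PV (e n))
    (hm : ∀ n, MajP (tens x (e n)) (tens y (e (n + 1)))) : SameC x y ∨ KTc x y := by
  by_cases hs : SameC x y
  · exact Or.inl hs
  right
  have hgr := growth hx hy he hm
  have hno : ∀ K : ℕ, ¬ ∀ k : ℕ, K ≤ k → 2 ≤ k → ∑ i, y i ^ k ≤ ∑ i, x i ^ k := by
    intro K h
    apply hs
    apply same_of_pow (max K 2)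
    intro k hk
    have h1 : K ≤ k := (le_max_left _ _).trans hk
    have h2 : 2 ≤ k := (le_max_right _ _).trans hk
    exact le_antisymm (hgr k h2) (h k h1 h2)
  refine ⟨?_, ?_, ?_, ?_⟩
  · intro r hr
    by_contra hc
    push Not at hc
    obtain ⟨K, hK⟩ := exists_nat_gt r
    exact hno K fun k hk hk2 => core1 hx hy he hm r hr hc k hk2
      (hK.trans_le (by exact_mod_cast hk))
  · by_contra hc
    push Not at hc
    exact hno 0 fun k _ hk2 => core3 hx hy he hm hc k hk2
  · intro r hr0 hr
    by_contra hc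
    push Not at hc
    exact hno 0 fun k _ hk2 => core2 hx hy he hm r hr0 hr hc k hk2
  · have hrank : rk y ≤ rk x := by
      by_contra hc
      push Not at hc
      have hstep : ∀ n, rk (e (n + 1)) < rk (e n) := by
        intro n
        have h1 := rk_le (hx.tens (he n)) (hy.tens (he (n + 1))) (hm n)
        rw [rk_tens, rk_tens] at h1
        by_contra h2
        push Not at h2
        have h3 : rk x * rk (e n) < rk y * rk (e (n + 1)) :=
          Nat.mul_lt_mul_of_lt_of_le hc h2 (rk_pos (he (n + 1)))
        omega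
      have hall : ∀ n, rk (e n) + n ≤ rk (e 0) := by
        intro n
        induction n with
        | zero => simp
        | succ n ih =>
          have := hstep n
          omega
      have h1 := hall (rk (e 0) + 1)
      omega
    rcases hrank.lt_or_eq with h | h
    · exact Or.inl h
    · right
      obtain ⟨K, D, c, g, hc, hg, hgm, hgK, hgc⟩ := const_chain hx hy h.symm he hm
      refine ⟨h, ?_, ?_⟩
      · by_contra hcon
        push Not at hcon
        exact hno 0 fun k _ hk2 => core5 hx hy hg hgm h.symm K hgK c hc hgc hcon k hk2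
      · intro r hr
        by_contra hcon
        push Not at hcon
        exact hno 0 fun k _ hk2 => core4 hx hy hg hgm h.symm K hgK c hc hgc r hr hcon k hk2

end Pool.Agent.H380FC
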