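import Mathlib

/-!
# A uniform form of Pólya's theorem in one variable
-/

set_option autoImplicit false

namespace Pool.Agent.H380FC

open Finset

/-- the binomial weights `C(N, k - j)` -/
noncomputable def bw (N k j : ℕ) : ℝ := if j ≤ k then (N.choose (k - j) : ℝ) else 0

theorem bw_nonneg (N k j : ℕ) : 0 ≤ bw N k j := by
  unfold bw; split_ifs <;> positivity

theorem bw_succ (N k j : ℕ) (hk : k ≤ N) :
    bw N k (j + 1) * ((N : ℝ) - k + j + 1) = bw N k j * ((k : ℝ) - j) := by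
  unfold bw
  by_cases h : j + 1 ≤ k
  · rw [if_pos h, if_pos (by omega)]
    obtain ⟨i, rfl⟩ := Nat.exists_eq_add_of_le h
    have e1 : j + 1 + i - (j + 1) = i := by omega
    have e2 : j + 1 + i - j = i + 1 := by omega
    rw [e1, e2]
    have h1 := Nat.choose_succ_right_eq N i
    have h2 : ((N.choose (i + 1) : ℕ) : ℝ) * (i + 1) = (N.choose i : ℝ) * ((N : ℝ) - i) := by
      have h3 : ((N - i : ℕ) : ℝ) = (N : ℝ) - i := by
        rw [Nat.cast_sub (by omega)]
      rw [← h3]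
      exact_mod_cast h1
    push_cast
    have : (N : ℝ) - (j + 1 + i) + j + 1 = (N : ℝ) - i := by ring
    rw [this, ← h2]
    ring
  · rw [if_neg h, zero_mul]
    by_cases h' : j ≤ k
    · have : j = k := by omega
      subst this
      simp
    · rw [if_neg h', zero_mul]

theorem bw_ratio (N k : ℕ) (hk : k ≤ N) (τ : ℝ) (hA : (k : ℝ) ≤ τ * ((N : ℝ) - k + 1)) (j : ℕ) :
    bw N k (j + 1) ≤ τ * bw N k j := by
  have h1 := bw_succ N k j hk
  have hkN : (k : ℝ) ≤ N := by exact_mod_cast hk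
  have hP : 0 < (N : ℝ) - k + j + 1 := by
    have : (0 : ℝ) ≤ j := Nat.cast_nonneg j
    linarith
  have h0 := bw_nonneg N k j
  have hk0 : (0 : ℝ) ≤ k := Nat.cast_nonneg k
  have hj0 : (0 : ℝ) ≤ j := Nat.cast_nonneg j
  have hτ : 0 ≤ τ := by
    by_contra hc
    push Not at hc
    nlinarith
  have h2 : bw N k (j + 1) * ((N : ℝ) - k + j + 1) ≤ τ * bw N k j * ((N : ℝ) - k + j + 1) := by
    rw [h1]
    have : (k : ℝ) - j ≤ τ * ((N : ℝ) - k + j + 1) := by nlinarith
    calc bw N k j * ((k : ℝ) - j) ≤ bw N k j * (τ * ((N : ℝ) - k + j + 1)) :=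
          mul_le_mul_of_nonneg_left this h0
      _ = τ * bw N k j * ((N : ℝ) - k + j + 1) := by ring
  exact le_of_mul_le_mul_right h2 hP

theorem bw_reflect (N d k j : ℕ) (hk : k ≤ N + d) (hj : j ≤ d) :
    bw N k (d - j) = bw N (N + d - k) j := by
  unfold bw
  by_cases h1 : d - j ≤ k
  · rw [if_pos h1]
    by_cases h2 : j ≤ N + d - k
    · rw [if_pos h2]
      have h3 : k - (d - j) ≤ N := by omega
      rw [← Nat.choose_symm h3]
      congr 2
      omega
    · rw [if_neg h2, Nat.choose_eq_zero_of_lt (by omega)]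
      simp
  · rw [if_neg h1]
    rw [if_pos (by omega), Nat.choose_eq_zero_of_lt (by omega)]
    simp

theorem polya_small (d J1 J0 N k : ℕ) (B c τ : ℝ) (hJ1 : J1 ≤ J0) (hJ0 : J0 ≤ d)
    (hτ1 : τ ≤ 1) (hB : 0 ≤ B) (hτc : (d + 1) * B * τ ≤ c) (q : ℕ → ℝ)
    (hb : ∀ j, |q j| ≤ B) (h0 : ∀ j, j ≤ J0 → 0 ≤ q j) (h1 : c ≤ q J1) (hk : k ≤ N)
    (hA : (k : ℝ) ≤ τ * ((N : ℝ) - k + 1)) : 0 ≤ ∑ j ∈ range (d + 1), bw N k j * q j := by
  have hkN : (k : ℝ) ≤ N := by exact_mod_cast hk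
  have hk0 : (0 : ℝ) ≤ k := Nat.cast_nonneg k
  have hτ : 0 ≤ τ := by
    by_contra hc
    push Not at hc
    nlinarith
  have hr : ∀ i, bw N k (J1 + (i + 1)) ≤ τ * bw N k J1 := by
    intro i
    induction i with
    | zero => exact bw_ratio N k hk τ hA J1
    | succ i ih =>
      have h2 := bw_ratio N k hk τ hA (J1 + (i + 1))
      have h3 := bw_nonneg N k (J1 + (i + 1))
      calc bw N k (J1 + (i + 1 + 1)) ≤ τ * bw N k (J1 + (i + 1)) := h2
        _ ≤ 1 * bw N k (J1 + (i + 1)) := mul_le_mul_of_nonneg_right hτ1 h3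
        _ ≤ τ * bw N k J1 := by rw [one_mul]; exact ih
  have hterm : ∀ j ∈ range (d + 1), (if j = J1 then bw N k J1 * c else 0) -
      B * (τ * bw N k J1) ≤ bw N k j * q j := by
    intro j _
    have hbn := bw_nonneg N k j
    have hpos : 0 ≤ B * (τ * bw N k J1) := mul_nonneg hB (mul_nonneg hτ (bw_nonneg _ _ _))
    by_cases hjJ : j = J1
    · rw [if_pos hjJ, hjJ]
      have := mul_le_mul_of_nonneg_left h1 (bw_nonneg N k J1)
      linarith
    · rw [if_neg hjJ]
      by_cases hj0 : j ≤ J0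
      · have := mul_nonneg hbn (h0 j hj0)
        linarith
      · obtain ⟨i, hi⟩ := Nat.exists_eq_add_of_lt (show J1 < j by omega)
        have h2 := hr i
        have h3 : bw N k j ≤ τ * bw N k J1 := by
          rw [hi]; exact h2
        have h4 : -B ≤ q j := (abs_le.1 (hb j)).1
        have h5 : bw N k j * (-B) ≤ bw N k j * q j := mul_le_mul_of_nonneg_left h4 hbn
        have h6 : B * bw N k j ≤ B * (τ * bw N k J1) := mul_le_mul_of_nonneg_left h3 hB
        linarith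
  refine le_trans ?_ (sum_le_sum hterm)
  rw [sum_sub_distrib, sum_ite_eq' (range (d + 1)) J1, if_pos (mem_range.2 (by omega)), sum_const,
    card_range, nsmul_eq_mul]
  have h2 := mul_le_mul_of_nonneg_left hτc (bw_nonneg N k J1)
  push_cast
  nlinarith

theorem polya_bulk (d N k : ℕ) (B τ m T δ : ℝ) (hB : 0 ≤ B) (q : ℕ → ℝ)
    (hb : ∀ j, |q j| ≤ B) (hk : k ≤ N) (hk0 : 0 < k) (t : ℝ) (ht : t = k / ((N : ℝ) - k + 1))
    (hT1 : 1 ≤ T) (htT : t ≤ T) (hδ0 : 0 ≤ δ) (hδ1 : δ ≤ 1)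
    (hδ : (d : ℝ) * (1 / k + 1 / ((N : ℝ) - k + 1)) ≤ δ)
    (hm : m ≤ ∑ j ∈ range (d + 1), q j * t ^ j) (hmδ : B * (d * δ) * ((d + 1) * T ^ d) ≤ m) :
    0 ≤ ∑ j ∈ range (d + 1), bw N k j * q j := by
  have hkN : (k : ℝ) ≤ N := by exact_mod_cast hk
  have hkp : (0 : ℝ) < k := by exact_mod_cast hk0
  set P : ℝ := (N : ℝ) - k + 1 with hP
  have hPp : 0 < P := by rw [hP]; linarith
  have ht0 : 0 < t := by rw [ht]; positivity
  have htP : t * P = k := by rw [ht]; field_simp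
  set C := bw N k 0 with hC
  have hCn : 0 ≤ C := bw_nonneg _ _ _
  have hup : ∀ j, bw N k j ≤ t ^ j * C := by
    intro j
    induction j with
    | zero => simp [hC]
    | succ j ih =>
      have h1 := bw_ratio N k hk t (by rw [← hP, htP]) j
      calc bw N k (j + 1) ≤ t * bw N k j := h1
        _ ≤ t * (t ^ j * C) := mul_le_mul_of_nonneg_left ih ht0.le
        _ = t ^ (j + 1) * C := by ring
  have hlow : ∀ j, j ≤ d → ((1 - δ) * t) ^ j * C ≤ bw N k j := by
    intro j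
    induction j with
    | zero => simp [hC]
    | succ j ih =>
      intro hj
      have ih' := ih (by omega)
      have h1 := bw_succ N k j hk
      have hj0 : (0 : ℝ) ≤ j := Nat.cast_nonneg j
      have hjd : (j : ℝ) + 1 ≤ d := by exact_mod_cast hj
      have e1 : (N : ℝ) - k + j + 1 = P + j := by rw [hP]; ring
      rw [e1] at h1
      have hPj : 0 < P + j := by linarith
      -- the ratio
      have h2 : (1 - δ) * t * (P + j) ≤ (k : ℝ) - j := by
        have h3 : (j : ℝ) * (P + k) ≤ δ * (k * P) := by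
          have h4 : (d : ℝ) * (1 / k + 1 / P) * (k * P) ≤ δ * (k * P) :=
            mul_le_mul_of_nonneg_right hδ (by positivity)
          have h5 : (d : ℝ) * (1 / k + 1 / P) * (k * P) = d * (P + k) := by
            field_simp
          rw [h5] at h4
          have h6 : (j : ℝ) * (P + k) ≤ d * (P + k) :=
            mul_le_mul_of_nonneg_right (by linarith) (by positivity)
          linarith
        have h7 : (1 - δ) * t * (P + j) * P ≤ ((k : ℝ) - j) * P := by
          have h8 : (1 - δ) * t * (P + j) * P = (1 - δ) * k * (P + j) := by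
            rw [← htP]; ring
          rw [h8]
          have h9 : 0 ≤ δ * (k * j) := by positivity
          nlinarith
        exact le_of_mul_le_mul_right h7 hPp
      have h3 : ((1 - δ) * t) ^ (j + 1) * C * (P + j) ≤ bw N k (j + 1) * (P + j) := by
        rw [h1]
        calc ((1 - δ) * t) ^ (j + 1) * C * (P + j)
            = (((1 - δ) * t) ^ j * C) * ((1 - δ) * t * (P + j)) := by ring
          _ ≤ bw N k j * ((1 - δ) * t * (P + j)) := by
              apply mul_le_mul_of_nonneg_right ih'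
              apply mul_nonneg (mul_nonneg (by linarith) ht0.le) hPj.le
          _ ≤ bw N k j * ((k : ℝ) - j) := mul_le_mul_of_nonneg_left h2 (bw_nonneg _ _ _)
      exact le_of_mul_le_mul_right h3 hPj
  have hterm : ∀ j ∈ range (d + 1), C * (q j * t ^ j) - C * (B * (d * δ) * T ^ d) ≤
      bw N k j * q j := by
    intro j hj
    have hjd : j ≤ d := by have := mem_range.1 hj; omega
    have hjdr : (j : ℝ) ≤ d := by exact_mod_cast hjd
    have h1 := hup j
    have h2 := hlow j hjd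
    have h3 : (1 - d * δ) ≤ (1 - δ) ^ j := by
      have h4 := one_add_mul_le_pow (show (-2 : ℝ) ≤ -δ by linarith) j
      have h5 : (j : ℝ) * δ ≤ d * δ := mul_le_mul_of_nonneg_right hjdr hδ0
      have h6 : (1 + -δ) ^ j = (1 - δ) ^ j := by ring_nf
      rw [h6] at h4
      linarith
    have htj : 0 ≤ t ^ j * C := mul_nonneg (pow_nonneg ht0.le j) hCn
    have h7 : t ^ j * C - bw N k j ≤ d * δ * (t ^ j * C) := by
      rw [mul_pow, mul_assoc] at h2
      have := mul_le_mul_of_nonneg_right h3 htj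
      linarith
    have h8 : t ^ j ≤ T ^ d := by
      calc t ^ j ≤ T ^ j := pow_le_pow_left₀ ht0.le htT j
        _ ≤ T ^ d := pow_le_pow_right₀ hT1 hjd
    have h9 : q j ≤ B := (abs_le.1 (hb j)).2
    have h10 : (t ^ j * C - bw N k j) * q j ≤ (t ^ j * C - bw N k j) * B :=
      mul_le_mul_of_nonneg_left h9 (by linarith)
    have h11 : (t ^ j * C - bw N k j) * B ≤ (d * δ * (t ^ j * C)) * B :=
      mul_le_mul_of_nonneg_right h7 hB
    have h12 : (d * δ * (t ^ j * C)) * B ≤ (d * δ * (T ^ d * C)) * B := by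
      apply mul_le_mul_of_nonneg_right _ hB
      apply mul_le_mul_of_nonneg_left _ (by positivity)
      exact mul_le_mul_of_nonneg_right h8 hCn
    nlinarith
  refine le_trans ?_ (sum_le_sum hterm)
  rw [sum_sub_distrib, ← mul_sum, sum_const, card_range, nsmul_eq_mul]
  have h1 := mul_le_mul_of_nonneg_left hm hCn
  have h2 := mul_le_mul_of_nonneg_left hmδ hCn
  push_cast
  nlinarith

theorem polya (d J1 J0 J1' J0' : ℕ) (B c : ℝ) (hc : 0 < c) (hB : 0 ≤ B) (hJ1 : J1 ≤ J0)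
    (hJ0 : J0 ≤ d) (hJ1' : J1' ≤ J0') (hJ0' : J0' ≤ d) (Q : Set (ℕ → ℝ))
    (hb : ∀ q ∈ Q, ∀ j, |q j| ≤ B)
    (h0 : ∀ q ∈ Q, ∀ j, j ≤ J0 → 0 ≤ q j) (h1 : ∀ q ∈ Q, c ≤ q J1)
    (h0' : ∀ q ∈ Q, ∀ j, j ≤ J0' → 0 ≤ q (d - j)) (h1' : ∀ q ∈ Q, c ≤ q (d - J1'))
    (hpos : ∀ t0 t1 : ℝ, 0 < t0 → ∃ m : ℝ, 0 < m ∧ ∀ q ∈ Q, ∀ t ∈ Set.Icc t0 t1,
      m ≤ ∑ j ∈ range (d + 1), q j * t ^ j) :
    ∃ N : ℕ, ∀ q ∈ Q, ∀ k : ℕ, 0 ≤ ∑ j ∈ range (d + 1), bw N k j * q j := by
  set τ : ℝ := min 1 (c / ((d + 1) * (B + 1))) with hτ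
  have hτ1 : τ ≤ 1 := min_le_left _ _
  have hdB : (0 : ℝ) < (d + 1) * (B + 1) := by positivity
  have hτ0 : 0 < τ := lt_min one_pos (by positivity)
  have hτc : (d + 1) * B * τ ≤ c := by
    have h2 : τ ≤ c / ((d + 1) * (B + 1)) := min_le_right _ _
    rw [le_div_iff₀ hdB] at h2
    have h3 : 0 ≤ ((d : ℝ) + 1) * τ := by positivity
    nlinarith
  obtain ⟨m, hm0, hm⟩ := hpos τ (4 / τ) hτ0
  set T : ℝ := 4 / τ with hT
  have hT1 : 1 ≤ T := by rw [hT, le_div_iff₀ hτ0]; linarith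
  obtain ⟨N, hN⟩ := exists_nat_gt (4 * d / τ + 6 * d / τ +
    6 * B * d ^ 2 * (d + 1) * T ^ d / (τ * m) + 1)
  have hz1 : (4 : ℝ) * d / τ ≥ 0 := by positivity
  have hz2 : (6 : ℝ) * d / τ ≥ 0 := by positivity
  have hz3 : 6 * B * d ^ 2 * (d + 1) * T ^ d / (τ * m) ≥ 0 := by positivity
  have hN1 : (4 : ℝ) * d ≤ τ * N := by
    have : (4 : ℝ) * d / τ ≤ N := by linarith
    rw [div_le_iff₀ hτ0] at this
    linarith
  have hN2 : (6 : ℝ) * d ≤ τ * N := by
    have : (6 : ℝ) * d / τ ≤ N := by linarith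
    rw [div_le_iff₀ hτ0] at this
    linarith
  have hN3 : 6 * B * d ^ 2 * (d + 1) * T ^ d ≤ N * (τ * m) := by
    have : 6 * B * d ^ 2 * (d + 1) * T ^ d / (τ * m) ≤ N := by linarith
    rwa [div_le_iff₀ (by positivity)] at this
  have hNp : (1 : ℝ) < N := by linarith
  refine ⟨N, fun q hq k => ?_⟩
  by_cases hkd : k ≤ N + d
  swap
  · apply le_of_eq
    symm
    apply sum_eq_zero
    intro j hj
    have hjd : j ≤ d := by have := mem_range.1 hj; omega
    unfold bw
    rw [if_pos (by omega), Nat.choose_eq_zero_of_lt (by omega)]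
    simp
  by_cases hA : k ≤ N ∧ (k : ℝ) ≤ τ * ((N : ℝ) - k + 1)
  · exact polya_small d J1 J0 N k B c τ hJ1 hJ0 hτ1 hB hτc q (hb q hq) (h0 q hq) (h1 q hq)
      hA.1 hA.2
  by_cases hBc : d ≤ k ∧ (((N + d - k : ℕ) : ℝ) ≤ τ * ((N : ℝ) - ((N + d - k : ℕ) : ℝ) + 1))
  · have h2 := polya_small d J1' J0' N (N + d - k) B c τ hJ1' hJ0' hτ1 hB hτc
      (fun j => q (d - j)) (fun j => hb q hq _) (h0' q hq) (h1' q hq) (by omega) hBc.2
    have h3 : ∑ j ∈ range (d + 1), bw N k j * q j =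
        ∑ j ∈ range (d + 1), bw N (N + d - k) j * q (d - j) := by
      rw [← sum_range_reflect]
      refine sum_congr rfl fun j hj => ?_
      have hjd : j ≤ d := by have := mem_range.1 hj; omega
      have e1 : d + 1 - 1 - j = d - j := by omega
      rw [e1, bw_reflect N d k j hkd hjd]
    rw [h3]
    exact h2
  -- the bulk
  have hd0 : (0 : ℝ) ≤ d := Nat.cast_nonneg d
  have hcast : ((N + d - k : ℕ) : ℝ) = (N : ℝ) + d - k := by
    rw [Nat.cast_sub hkd]; push_cast; ring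
  rw [hcast] at hBc
  have hkr : (0 : ℝ) ≤ k := Nat.cast_nonneg k
  -- upper part
  have hup : τ * N / 4 ≤ (N : ℝ) - k := by
    by_cases hdk : d ≤ k
    · have h2 : τ * ((N : ℝ) - ((N : ℝ) + d - k) + 1) < (N : ℝ) + d - k := by
        by_contra hcon
        push Not at hcon
        exact hBc ⟨hdk, hcon⟩
      have h3 : τ * (k - d + 1) < (N : ℝ) + d - k := by
        have : (N : ℝ) - ((N : ℝ) + d - k) + 1 = k - d + 1 := by ring
        rwa [this] at h2
      by_contra hcon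
      push Not at hcon
      nlinarith
    · push Not at hdk
      have h4 : (k : ℝ) < d := by exact_mod_cast hdk
      nlinarith
  have hkN : (k : ℝ) ≤ N := by nlinarith [mul_pos hτ0 (show (0 : ℝ) < N by linarith)]
  have hkN' : k ≤ N := by exact_mod_cast hkN
  have hlow : τ * ((N : ℝ) - k + 1) < k := by
    by_contra hcon
    push Not at hcon
    exact hA ⟨hkN', hcon⟩
  have hlow2 : τ * N / 2 ≤ k := by nlinarith
  have hτN : 0 < τ * N := mul_pos hτ0 (by linarith)
  have hkp : (0 : ℝ) < k := by linarith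
  set P : ℝ := (N : ℝ) - k + 1 with hP
  have hPp : 0 < P := by rw [hP]; linarith
  have hPl : τ * N / 4 ≤ P := by rw [hP]; linarith
  have ht1 : (k : ℝ) / P ≤ T := by
    rw [div_le_iff₀ hPp, hT]
    have h5 : (N : ℝ) ≤ 4 / τ * P := by
      rw [div_mul_eq_mul_div, le_div_iff₀ hτ0]
      linarith
    linarith
  refine polya_bulk d N k B τ m T (6 * d / (τ * N)) hB q (hb q hq) hkN'
    (by exact_mod_cast hkp) (k / P) rfl hT1 ht1 (by positivity) ?_ ?_ ?_ ?_
  · rw [div_le_one hτN]; linarith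
  · have h5 : 1 / (k : ℝ) ≤ 2 / (τ * N) := by
      rw [div_le_div_iff₀ hkp hτN]; linarith
    have h6 : 1 / P ≤ 4 / (τ * N) := by
      rw [div_le_div_iff₀ hPp hτN]; linarith
    calc (d : ℝ) * (1 / k + 1 / P) ≤ d * (2 / (τ * N) + 4 / (τ * N)) :=
          mul_le_mul_of_nonneg_left (by linarith) hd0
      _ = 6 * d / (τ * N) := by ring
  · refine hm q hq _ ⟨?_, ht1⟩
    rw [le_div_iff₀ hPp]
    linarith
  · have h7 : B * (d * (6 * d / (τ * N))) * ((d + 1) * T ^ d) =
        6 * B * d ^ 2 * (d + 1) * T ^ d / (τ * N) := by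
      field_simp
    rw [h7, div_le_iff₀ hτN]
    linarith

end Pool.Agent.H380FC
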