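import Mathlib
import Pool.Agent.H380FC.G1

/-!
# Binomial smoothing of a function with positive Laplace transform
-/

set_option autoImplicit false

namespace Pool.Agent.H380FC

open Finset MeasureTheory

/-- Riemann sums -/
theorem riemann (F : ℝ → ℝ) (hF : Continuous F) (a b h u0 ε : ℝ) (d : ℕ) (hh : 0 < h)
    (hd : (d : ℝ) * h = b - a) (hu : a ≤ u0) (hu' : u0 ≤ a + h) (h1 : h ≤ 1)
    (hF0 : ∀ u, u ≤ a ∨ b ≤ u → F u = 0)
    (hε : ∀ u ∈ Set.Icc (a - 1) (b + 1), ∀ v ∈ Set.Icc (a - 1) (b + 1), |u - v| ≤ h →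
      |F u - F v| ≤ ε) :
    |h * ∑ j ∈ range (d + 1), F (u0 + j * h) - ∫ u in a..b, F u| ≤ ε * ((d + 1) * h) := by
  have hint : ∀ p q : ℝ, IntervalIntegrable F volume p q := fun p q => hF.intervalIntegrable p q
  have hab : ∫ u in a..b, F u = ∫ u in (u0 - h)..(u0 + d * h), F u := by
    rw [intervalIntegral.integral_eq_integral_of_support_subset,
      intervalIntegral.integral_eq_integral_of_support_subset]
    · intro u hu0
      rw [Function.mem_support] at hu0
      constructor
      · by_contra hc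
        push Not at hc
        exact hu0 (hF0 u (Or.inl (by linarith)))
      · by_contra hc
        push Not at hc
        exact hu0 (hF0 u (Or.inr (by linarith)))
    · intro u hu0
      rw [Function.mem_support] at hu0
      constructor
      · by_contra hc
        push Not at hc
        exact hu0 (hF0 u (Or.inl hc))
      · by_contra hc
        push Not at hc
        exact hu0 (hF0 u (Or.inr hc.le))
  have hsum := intervalIntegral.sum_integral_adjacent_intervals (f := F) (μ := volume)
    (a := fun k : ℕ => u0 + ((k : ℝ) - 1) * h) (n := d + 1) (fun k _ => hint _ _)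
  have e0 : u0 + (((0 : ℕ) : ℝ) - 1) * h = u0 - h := by push_cast; ring
  have e1 : u0 + (((d + 1 : ℕ) : ℝ) - 1) * h = u0 + d * h := by push_cast; ring
  beta_reduce at hsum
  rw [e0, e1] at hsum
  rw [hab, ← hsum, mul_sum, ← sum_sub_distrib]
  refine (abs_sum_le_sum_abs _ _).trans ?_
  have hterm : ∀ j ∈ range (d + 1), |h * F (u0 + j * h) -
      ∫ x in (u0 + ((j : ℝ) - 1) * h)..(u0 + (((j + 1 : ℕ) : ℝ) - 1) * h), F x| ≤ ε * h := by
    intro j hj
    have hjd : (j : ℝ) ≤ d := by
      have := mem_range.1 hj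
      exact_mod_cast (by omega : j ≤ d)
    have hj0 : (0 : ℝ) ≤ j := Nat.cast_nonneg j
    have e2 : u0 + (((j + 1 : ℕ) : ℝ) - 1) * h = u0 + j * h := by push_cast; ring
    rw [e2]
    have hlen : u0 + j * h - (u0 + ((j : ℝ) - 1) * h) = h := by ring
    have h2 : h * F (u0 + j * h) = ∫ _x in (u0 + ((j : ℝ) - 1) * h)..(u0 + j * h),
        F (u0 + j * h) := by
      rw [intervalIntegral.integral_const, hlen, smul_eq_mul]
    rw [h2, ← intervalIntegral.integral_sub (by simp) (hint _ _), ← Real.norm_eq_abs]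
    have h3 := intervalIntegral.norm_integral_le_of_norm_le_const
      (a := u0 + ((j : ℝ) - 1) * h) (b := u0 + j * h) (C := ε)
      (f := fun x => F (u0 + j * h) - F x) (fun x hx => by
        rw [Set.uIoc_of_le (by nlinarith)] at hx
        have hjh : (j : ℝ) * h ≤ b - a := by
          rw [← hd]; exact mul_le_mul_of_nonneg_right hjd hh.le
        have hjh0 : 0 ≤ (j : ℝ) * h := by positivity
        rw [Real.norm_eq_abs]
        apply hε
        · constructor <;> linarith
        · constructor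
          · have := hx.1; nlinarith
          · have := hx.2; linarith
        · rw [abs_le]
          constructor
          · have := hx.2; linarith
          · have := hx.1; nlinarith)
    rw [hlen, abs_of_pos hh] at h3
    exact h3
  refine (sum_le_sum hterm).trans (le_of_eq ?_)
  rw [sum_const, card_range, nsmul_eq_mul]
  push_cast
  ring

open Classical in
/-- counting the points of a progression in an interval -/
theorem count_pts (u0 h p η : ℝ) (d : ℕ) (hh : 0 < h) (hη : h ≤ η / 2) (hp : u0 ≤ p)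
    (hq : p + η ≤ u0 + d * h) :
    η / (2 * h) ≤ (((range (d + 1)).filter
      (fun j : ℕ => p ≤ u0 + j * h ∧ u0 + j * h ≤ p + η)).card : ℝ) := by
  set j1 := ⌈(p - u0) / h⌉₊ with hj1
  set m := ⌊η / h⌋₊ with hm
  have h1 : (p - u0) / h ≤ j1 := Nat.le_ceil _
  have h2 : (j1 : ℝ) < (p - u0) / h + 1 := Nat.ceil_lt_add_one (div_nonneg (by linarith) hh.le)
  have h3 : (m : ℝ) ≤ η / h := Nat.floor_le (div_nonneg (by linarith) hh.le)
  have h4 : η / h < m + 1 := Nat.lt_floor_add_one _
  rw [div_le_iff₀ hh] at h1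
  have h2' : (j1 : ℝ) * h < p - u0 + h := by
    have := mul_lt_mul_of_pos_right h2 hh
    rwa [add_mul, div_mul_cancel₀ _ hh.ne', one_mul] at this
  rw [le_div_iff₀ hh] at h3
  have hcard : m ≤ ((range (d + 1)).filter
      (fun j : ℕ => p ≤ u0 + j * h ∧ u0 + j * h ≤ p + η)).card := by
    rw [← card_range m]
    apply card_le_card_of_injOn (fun i => j1 + i)
    · intro i hi
      have hi' : i < m := mem_range.1 (mem_coe.1 hi)
      have hi2 : (i : ℝ) + 1 ≤ m := by exact_mod_cast hi'
      have hi0 : (0 : ℝ) ≤ i := Nat.cast_nonneg i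
      have h5 : ((i : ℝ) + 1) * h ≤ m * h := mul_le_mul_of_nonneg_right hi2 hh.le
      have h6 : 0 ≤ (i : ℝ) * h := by positivity
      have h7 : u0 + ((j1 + i : ℕ) : ℝ) * h ≤ p + η := by push_cast; nlinarith
      have h8 : p ≤ u0 + ((j1 + i : ℕ) : ℝ) * h := by push_cast; nlinarith
      rw [mem_coe, mem_filter, mem_range]
      refine ⟨?_, h8, h7⟩
      have h9 : ((j1 + i : ℕ) : ℝ) * h ≤ d * h := by linarith
      have h10 := le_of_mul_le_mul_right h9 hh
      have h11 : j1 + i ≤ d := by exact_mod_cast h10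
      show j1 + i < d + 1
      omega
    · intro i _ i' _ hii
      simpa using hii
  have hcard' : (m : ℝ) ≤ (((range (d + 1)).filter
      (fun j : ℕ => p ≤ u0 + j * h ∧ u0 + j * h ≤ p + η)).card : ℝ) := by exact_mod_cast hcard
  refine le_trans ?_ hcard'
  have h5 : η / (2 * h) = η / h / 2 := by field_simp
  have h6 : 2 ≤ η / h := by rw [le_div_iff₀ hh]; linarith
  rw [h5]
  linarith

section

variable (G : ℝ → ℝ) (hG : Continuous G) (a b η c : ℝ) (hη : 0 < η) (hc : 0 < c)
  (hab : a + 3 * η ≤ b - 3 * η) (hG0 : ∀ u, u ≤ a ∨ b ≤ u → G u = 0)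
  (hL0 : ∀ u, u ≤ a + 3 * η → 0 ≤ G u) (hL1 : ∀ u ∈ Set.Icc (a + η) (a + 2 * η), c ≤ G u)
  (hR0 : ∀ u, b - 3 * η ≤ u → 0 ≤ G u) (hR1 : ∀ u ∈ Set.Icc (b - 2 * η) (b - η), c ≤ G u)
  (hI : ∀ r : ℝ, 0 < ∫ u in a..b, G u * Real.exp (r * u))

include hG hη hc hab hG0 hL0 hL1 hR0 hR1 hI

open Classical in
theorem step1 : ∃ (d : ℕ) (h : ℝ), 0 < h ∧ (d : ℝ) * h = b - a ∧ 2 * h ≤ η ∧
    ∀ r : ℝ, ∀ u0 ∈ Set.Icc a (a + h),
      0 < ∑ j ∈ range (d + 1), G (u0 + j * h) * Real.exp (r * (u0 + j * h)) := by
  -- a bound for `G`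
  obtain ⟨B, hB0, hB⟩ : ∃ B : ℝ, 0 < B ∧ ∀ u, |G u| ≤ B := by
    obtain ⟨B, hB⟩ := (isCompact_Icc (a := a) (b := b)).exists_bound_of_continuousOn
      hG.continuousOn
    refine ⟨max B 1, lt_max_of_lt_right one_pos, fun u => ?_⟩
    by_cases hu : u ∈ Set.Icc a b
    · exact (hB u hu).trans (le_max_left _ _)
    · have : u ≤ a ∨ b ≤ u := by
        by_contra hcon
        push Not at hcon
        exact hu ⟨hcon.1.le, hcon.2.le⟩
      rw [hG0 u this, abs_zero]
      exact le_max_of_le_right zero_le_one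
  have hL : 0 < b - a := by linarith
  -- large `r`
  set R : ℝ := (4 * B * (b - a) / (c * η) + 1) / η with hR
  have hRpos : 0 < R := by rw [hR]; positivity
  have hbig : ∀ r, R ≤ r → 2 * B * (b - a) < c * η / 2 * Real.exp (r * η) := by
    intro r hr
    have h1 : 4 * B * (b - a) / (c * η) < Real.exp (r * η) := by
      have h2 := Real.add_one_le_exp (r * η)
      have h3 : 4 * B * (b - a) / (c * η) + 1 ≤ r * η := by
        rw [hR, div_le_iff₀ hη] at hr
        exact hr
      linarith
    rw [div_lt_iff₀ (by positivity)] at h1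
    linarith
  -- the minimum of the integral
  obtain ⟨m, hm0, hm⟩ : ∃ m : ℝ, 0 < m ∧ ∀ r ∈ Set.Icc (-R) R,
      m ≤ ∫ u in a..b, G u * Real.exp (r * u) := by
    have hcont : Continuous (fun r : ℝ => ∫ u in a..b, G u * Real.exp (r * u)) := by
      apply intervalIntegral.continuous_parametric_intervalIntegral_of_continuous'
      unfold Function.uncurry
      fun_prop
    obtain ⟨r0, hr0, hr0m⟩ := (isCompact_Icc (a := -R) (b := R)).exists_isMinOn
      ⟨0, by constructor <;> linarith⟩ hcont.continuousOn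
    exact ⟨_, hI r0, fun r hr => hr0m hr⟩
  -- uniform continuity
  set ε : ℝ := m / (4 * (b - a)) with hε
  have hε0 : 0 < ε := by positivity
  obtain ⟨δ, hδ0, hδ⟩ : ∃ δ : ℝ, 0 < δ ∧ ∀ r ∈ Set.Icc (-R) R,
      ∀ u ∈ Set.Icc (a - 1) (b + 1), ∀ v ∈ Set.Icc (a - 1) (b + 1), |u - v| < δ →
        |G u * Real.exp (r * u) - G v * Real.exp (r * v)| ≤ ε := by
    have hK : IsCompact (Set.Icc (-R) R ×ˢ Set.Icc (a - 1) (b + 1)) :=
      isCompact_Icc.prod isCompact_Icc
    have hc2 : ContinuousOn (fun p : ℝ × ℝ => G p.2 * Real.exp (p.1 * p.2))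
        (Set.Icc (-R) R ×ˢ Set.Icc (a - 1) (b + 1)) := by
      apply Continuous.continuousOn
      fun_prop
    have huc := hK.uniformContinuousOn_of_continuous hc2
    rw [Metric.uniformContinuousOn_iff] at huc
    obtain ⟨δ, hδ0, hδ⟩ := huc ε hε0
    refine ⟨δ, hδ0, fun r hr u hu v hv huv => ?_⟩
    have := hδ (r, u) ⟨hr, hu⟩ (r, v) ⟨hr, hv⟩ (by
      rw [Prod.dist_eq, dist_self, Real.dist_eq]
      exact max_lt hδ0 huv)
    rw [Real.dist_eq] at this
    exact this.le
  -- the step
  obtain ⟨d, hd⟩ := exists_nat_gt ((b - a) / (min (min (η / 2) (δ / 2)) (min 1 (b - a))))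
  set μ := min (min (η / 2) (δ / 2)) (min 1 (b - a)) with hμ
  have hμ0 : 0 < μ := by
    rw [hμ]
    exact lt_min (lt_min (by linarith) (by linarith)) (lt_min one_pos hL)
  have hdp : (0 : ℝ) < d := lt_trans (by positivity) hd
  set h : ℝ := (b - a) / d with hh
  have hh0 : 0 < h := by rw [hh]; positivity
  have hhμ : h < μ := by
    rw [hh, div_lt_iff₀ hdp]
    rw [div_lt_iff₀ hμ0] at hd
    linarith
  have hdh : (d : ℝ) * h = b - a := by rw [hh]; field_simp
  have hhη : h ≤ η / 2 := hhμ.le.trans ((min_le_left _ _).trans (min_le_left _ _))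
  have hhδ : h ≤ δ / 2 := hhμ.le.trans ((min_le_left _ _).trans (min_le_right _ _))
  have hh1 : h ≤ 1 := hhμ.le.trans ((min_le_right _ _).trans (min_le_left _ _))
  have hhL : h ≤ b - a := hhμ.le.trans ((min_le_right _ _).trans (min_le_right _ _))
  have hd1h : ((d : ℝ) + 1) * h ≤ 2 * (b - a) := by nlinarith
  refine ⟨d, h, hh0, hdh, by linarith, fun r u0 hu0 => ?_⟩
  -- a lower bound from good points
  have hgood : ∀ (p X Y : ℝ), u0 ≤ p → p + η ≤ u0 + d * h → 0 ≤ X → 0 ≤ Y →
      2 * B * (b - a) * Y < c * η / 2 * X →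
      (∀ j ∈ range (d + 1), (if p ≤ u0 + j * h ∧ u0 + j * h ≤ p + η then c * X else 0) - B * Y ≤
        G (u0 + j * h) * Real.exp (r * (u0 + j * h))) →
      0 < ∑ j ∈ range (d + 1), G (u0 + j * h) * Real.exp (r * (u0 + j * h)) := by
    intro p X Y hp hq hX hY hXY hterm
    refine lt_of_lt_of_le ?_ (sum_le_sum hterm)
    rw [sum_sub_distrib, ← sum_filter, sum_const, sum_const, card_range, nsmul_eq_mul,
      nsmul_eq_mul]
    have hcnt := count_pts u0 h p η d hh0 hhη hp hq
    have h1 : η / (2 * h) * (c * X) ≤ (((range (d + 1)).filter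
      (fun j : ℕ => p ≤ u0 + j * h ∧ u0 + j * h ≤ p + η)).card : ℝ) * (c * X) :=
      mul_le_mul_of_nonneg_right hcnt (by positivity)
    have h2 : 0 < (η / (2 * h) * (c * X) - ((d : ℝ) + 1) * (B * Y)) * h := by
      have h3 : η / (2 * h) * (c * X) * h = c * η / 2 * X := by field_simp
      have h4 : ((d : ℝ) + 1) * (B * Y) * h ≤ 2 * (b - a) * (B * Y) := by
        have := mul_le_mul_of_nonneg_right hd1h (by positivity : 0 ≤ B * Y)
        nlinarith
      rw [sub_mul, h3]
      linarith
    have h5 := (mul_pos_iff_of_pos_right hh0).1 h2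
    push_cast
    linarith
  rcases le_total r (-R) with hr | hr
  · -- `r` very negative: left edge
    refine hgood (a + η) (Real.exp (r * (a + 2 * η))) (Real.exp (r * (a + 3 * η)))
      (by have := hu0.2; linarith) (by have := hu0.1; linarith) (Real.exp_pos _).le
      (Real.exp_pos _).le ?_ ?_
    · have h1 := hbig (-r) (by linarith)
      have h2 : Real.exp (r * (a + 2 * η)) = Real.exp (-r * η) * Real.exp (r * (a + 3 * η)) := by
        rw [← Real.exp_add]; congr 1; ring
      rw [h2]
      have := mul_lt_mul_of_pos_right h1 (Real.exp_pos (r * (a + 3 * η)))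
      linarith
    · intro j _
      have hE := Real.exp_pos (r * (u0 + j * h))
      have hBY : 0 ≤ B * Real.exp (r * (a + 3 * η)) := by positivity
      split_ifs with hj
      · have h1 : c ≤ G (u0 + j * h) := hL1 _ ⟨hj.1, by linarith [hj.2]⟩
        have h2 : Real.exp (r * (a + 2 * η)) ≤ Real.exp (r * (u0 + j * h)) := by
          apply Real.exp_le_exp.2
          have := hj.2
          nlinarith
        have h3 : c * Real.exp (r * (a + 2 * η)) ≤ G (u0 + j * h) * Real.exp (r * (u0 + j * h)) :=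
          mul_le_mul h1 h2 (Real.exp_pos _).le (hc.le.trans h1)
        linarith
      · by_cases h3 : u0 + j * h ≤ a + 3 * η
        · have := mul_nonneg (hL0 _ h3) hE.le
          linarith
        · push Not at h3
          have h4 : Real.exp (r * (u0 + j * h)) ≤ Real.exp (r * (a + 3 * η)) := by
            apply Real.exp_le_exp.2
            nlinarith
          have h5 : -B ≤ G (u0 + j * h) := (abs_le.1 (hB _)).1
          have h6 : -B * Real.exp (r * (u0 + j * h)) ≤
              G (u0 + j * h) * Real.exp (r * (u0 + j * h)) := mul_le_mul_of_nonneg_right h5 hE.le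
          have h7 := mul_le_mul_of_nonneg_left h4 hB0.le
          linarith
  rcases le_total R r with hr' | hr'
  · -- `r` very large: right edge
    refine hgood (b - 2 * η) (Real.exp (r * (b - 2 * η))) (Real.exp (r * (b - 3 * η)))
      (by have := hu0.2; linarith) (by have := hu0.1; linarith) (Real.exp_pos _).le
      (Real.exp_pos _).le ?_ ?_
    · have h1 := hbig r hr'
      have h2 : Real.exp (r * (b - 2 * η)) = Real.exp (r * η) * Real.exp (r * (b - 3 * η)) := by
        rw [← Real.exp_add]; congr 1; ring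
      rw [h2]
      have := mul_lt_mul_of_pos_right h1 (Real.exp_pos (r * (b - 3 * η)))
      linarith
    · intro j _
      have hE := Real.exp_pos (r * (u0 + j * h))
      have hBY : 0 ≤ B * Real.exp (r * (b - 3 * η)) := by positivity
      split_ifs with hj
      · have h1 : c ≤ G (u0 + j * h) := hR1 _ ⟨hj.1, by linarith [hj.2]⟩
        have h2 : Real.exp (r * (b - 2 * η)) ≤ Real.exp (r * (u0 + j * h)) := by
          apply Real.exp_le_exp.2
          have := hj.1
          nlinarith
        have h3 : c * Real.exp (r * (b - 2 * η)) ≤ G (u0 + j * h) * Real.exp (r * (u0 + j * h)) :=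
          mul_le_mul h1 h2 (Real.exp_pos _).le (hc.le.trans h1)
        linarith
      · by_cases h3 : b - 3 * η ≤ u0 + j * h
        · have := mul_nonneg (hR0 _ h3) hE.le
          linarith
        · push Not at h3
          have h4 : Real.exp (r * (u0 + j * h)) ≤ Real.exp (r * (b - 3 * η)) := by
            apply Real.exp_le_exp.2
            nlinarith
          have h5 : -B ≤ G (u0 + j * h) := (abs_le.1 (hB _)).1
          have h6 : -B * Real.exp (r * (u0 + j * h)) ≤
              G (u0 + j * h) * Real.exp (r * (u0 + j * h)) := mul_le_mul_of_nonneg_right h5 hE.le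
          have h7 := mul_le_mul_of_nonneg_left h4 hB0.le
          linarith
  · -- the middle range
    have h1 := riemann (fun u => G u * Real.exp (r * u)) (by fun_prop) a b h u0 ε d hh0 hdh
      hu0.1 hu0.2 hh1 (fun u hu => by beta_reduce; rw [hG0 u hu, zero_mul])
      (fun u hu v hv huv => hδ r ⟨hr, hr'⟩ u hu v hv (by linarith))
    have h2 := hm r ⟨hr, hr'⟩
    have h3 : ε * (((d : ℝ) + 1) * h) ≤ m / 2 := by
      calc ε * (((d : ℝ) + 1) * h) ≤ ε * (2 * (b - a)) :=
            mul_le_mul_of_nonneg_left hd1h hε0.le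
        _ = m / 2 := by rw [hε]; field_simp; ring
    have h4 := (abs_le.1 h1).1
    have h5 : 0 < h * ∑ j ∈ range (d + 1), G (u0 + j * h) * Real.exp (r * (u0 + j * h)) := by
      linarith
    exact (mul_pos_iff_of_pos_left hh0).1 h5

end

end Pool.Agent.H380FC
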