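import Mathlib
import Pool.Agent.H380FC.G3

/-!
# The difference function of two vectors
-/

set_option autoImplicit false

namespace Pool.Agent.H380FC

open Finset MeasureTheory Filter Topology

/-- the difference function -/
noncomputable def EE (V : Finset ℝ) (ν : ℝ → ℝ) (u : ℝ) : ℝ :=
  ∑ t ∈ V, ν t * max (Real.exp (Real.log t - u) - 1) 0

theorem EE_cont (V : Finset ℝ) (ν : ℝ → ℝ) : Continuous (EE V ν) := by
  unfold EE
  apply continuous_finsetSum
  intro t _
  fun_prop

/-- the sign of the dominating coefficient -/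
theorem lim_sign (V : Finset ℝ) (ν g : ℝ → ℝ) (t0 : ℝ) (ht0 : t0 ∈ V) (hg0 : g t0 = 1)
    (hg : ∀ t ∈ V, t ≠ t0 → 0 ≤ g t ∧ g t < 1)
    (h : ∀ k : ℕ, 2 ≤ k → 0 < ∑ t ∈ V, ν t * g t ^ k) : 0 ≤ ν t0 := by
  have hlim : Tendsto (fun k : ℕ => ∑ t ∈ V, ν t * g t ^ k) atTop
      (𝓝 (∑ t ∈ V, if t = t0 then ν t0 else 0)) := by
    apply tendsto_finsetSum
    intro t ht
    by_cases htt : t = t0
    · subst htt
      simp only [hg0, one_pow, mul_one, if_true]
      exact tendsto_const_nhds
    · rw [if_neg htt]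
      have := (tendsto_pow_atTop_nhds_zero_of_lt_one (hg t ht htt).1 (hg t ht htt).2).const_mul
        (ν t)
      rwa [mul_zero] at this
  rw [sum_ite_eq' V t0, if_pos ht0] at hlim
  exact ge_of_tendsto hlim (eventually_atTop.2 ⟨2, fun k hk => (h k hk).le⟩)

section

variable (V : Finset ℝ) (ν : ℝ → ℝ) (hV : ∀ t ∈ V, 0 < t) (hsum : ∑ t ∈ V, ν t * t = 0)
  (ρ : ℝ) (hρ : ∑ t ∈ V, ν t = -ρ)

/-- right edge -/
theorem EE_right (t1 b η : ℝ) (ht1 : t1 ∈ V) (hb : b = Real.log t1)
    (hη : ∀ t ∈ V, t ≠ t1 → Real.log t ≤ b - 3 * η) (u : ℝ) (hu : b - 3 * η ≤ u) :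
    EE V ν u = ν t1 * max (Real.exp (b - u) - 1) 0 := by
  unfold EE
  rw [sum_eq_single_of_mem t1 ht1, hb]
  intro t ht hne
  rw [max_eq_right, mul_zero]
  have h1 : Real.log t - u ≤ 0 := by have := hη t ht hne; linarith
  have := Real.exp_le_one_iff.2 h1
  linarith

include hV hsum hρ in
/-- left edge -/
theorem EE_left (t0 a η : ℝ) (ht0 : t0 ∈ V) (ha : a = Real.log t0)
    (hη : ∀ t ∈ V, t ≠ t0 → a + 3 * η ≤ Real.log t) (u : ℝ) (hu : u ≤ a + 3 * η) :
    EE V ν u = ρ + ν t0 * max (1 - Real.exp (a - u)) 0 := by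
  have h1 : ∀ t ∈ V, ν t * max (Real.exp (Real.log t - u) - 1) 0 =
      (ν t * t) * Real.exp (-u) - ν t + if t = t0 then ν t0 * max (1 - Real.exp (a - u)) 0 else 0 := by
    intro t ht
    have h2 : Real.exp (Real.log t - u) = t * Real.exp (-u) := by
      rw [sub_eq_add_neg, Real.exp_add, Real.exp_log (hV t ht)]
    by_cases htt : t = t0
    · subst htt
      rw [if_pos rfl, ha]
      rcases le_total (Real.exp (Real.log t - u)) 1 with h | h
      · rw [max_eq_right (by linarith), max_eq_left (by linarith), h2]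
        ring
      · rw [max_eq_left (by linarith), max_eq_right (by linarith), h2]
        ring
    · rw [if_neg htt, max_eq_left, h2]
      · ring
      · have := Real.one_le_exp (show 0 ≤ Real.log t - u by have := hη t ht htt; linarith)
        linarith
  unfold EE
  rw [sum_congr rfl h1, sum_add_distrib, sum_sub_distrib, ← sum_mul, hsum, hρ,
    sum_ite_eq' V t0, if_pos ht0]
  ring

include hV hsum hρ in
theorem EE_int_aux (a b r : ℝ) (K : ℝ → ℝ) (hab : ∀ t ∈ V, a ≤ Real.log t ∧ Real.log t ≤ b)
    (hK : ∀ t ∈ V, ∫ u in a..Real.log t, (t * Real.exp (-u) - 1) * Real.exp (r * u) = K t) :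
    ∫ u in a..b, EE V ν u * Real.exp (r * u) = ∑ t ∈ V, ν t * K t := by
  have h1 : ∀ u, EE V ν u * Real.exp (r * u) =
      ∑ t ∈ V, ν t * (max (Real.exp (Real.log t - u) - 1) 0 * Real.exp (r * u)) := by
    intro u
    unfold EE
    rw [sum_mul]
    exact sum_congr rfl fun t _ => by ring
  simp only [h1]
  rw [intervalIntegral.integral_finsetSum]
  · refine sum_congr rfl fun t ht => ?_
    rw [intervalIntegral.integral_const_mul]
    congr 1
    have hc : Continuous fun u => max (Real.exp (Real.log t - u) - 1) 0 * Real.exp (r * u) := by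
      fun_prop
    rw [← intervalIntegral.integral_add_adjacent_intervals
      (hc.intervalIntegrable a (Real.log t)) (hc.intervalIntegrable (Real.log t) b), ← hK t ht]
    have e2 : ∫ u in (Real.log t)..b, max (Real.exp (Real.log t - u) - 1) 0 * Real.exp (r * u) =
        0 := by
      rw [intervalIntegral.integral_congr (g := fun _ => (0 : ℝ))]
      · simp
      · intro u hu
        rw [Set.uIcc_of_le (hab t ht).2] at hu
        have := Real.exp_le_one_iff.2 (show Real.log t - u ≤ 0 by linarith [hu.1])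
        simp only []
        rw [max_eq_right (by linarith), zero_mul]
    rw [e2, add_zero]
    apply intervalIntegral.integral_congr
    intro u hu
    rw [Set.uIcc_of_le (hab t ht).1] at hu
    have := Real.one_le_exp (show 0 ≤ Real.log t - u by linarith [hu.2])
    have h2 : Real.exp (Real.log t - u) = t * Real.exp (-u) := by
      rw [sub_eq_add_neg, Real.exp_add, Real.exp_log (hV t ht)]
    simp only []
    rw [max_eq_left (by linarith), h2]
  · intro t _
    apply Continuous.intervalIntegrable
    fun_prop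

include hV hsum hρ in
/-- the Laplace transform, `r ≠ 0, 1` -/
theorem EE_int (a b r : ℝ) (hab : ∀ t ∈ V, a ≤ Real.log t ∧ Real.log t ≤ b) (hr0 : r ≠ 0)
    (hr1 : r ≠ 1) : ∫ u in a..b, EE V ν u * Real.exp (r * u) =
      (∑ t ∈ V, ν t * t ^ r) / (r * (r - 1)) - ρ * Real.exp (r * a) / r := by
  have hr1' : r - 1 ≠ 0 := sub_ne_zero.2 hr1
  rw [EE_int_aux V ν hV hsum ρ hρ a b r (fun t => t ^ r / (r * (r - 1)) -
    t * (Real.exp ((r - 1) * a) / (r - 1)) + Real.exp (r * a) / r) hab]
  · have : ∀ t ∈ V, ν t * (t ^ r / (r * (r - 1)) -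
        t * (Real.exp ((r - 1) * a) / (r - 1)) + Real.exp (r * a) / r) =
        ν t * t ^ r / (r * (r - 1)) - (ν t * t) * (Real.exp ((r - 1) * a) / (r - 1)) +
          ν t * (Real.exp (r * a) / r) := by
      intro t _
      ring
    rw [sum_congr rfl this, sum_add_distrib, sum_sub_distrib, ← sum_div, ← sum_mul, ← sum_mul,
      hsum, hρ]
    ring
  · intro t ht
    have hder : ∀ u ∈ Set.uIcc a (Real.log t), HasDerivAt
        (fun u => t * (Real.exp ((r - 1) * u) / (r - 1)) - Real.exp (r * u) / r)
        ((t * Real.exp (-u) - 1) * Real.exp (r * u)) u := by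
      intro u _
      have h1 : HasDerivAt (fun u => Real.exp ((r - 1) * u)) (Real.exp ((r - 1) * u) * (r - 1)) u := by
        have := ((hasDerivAt_id u).const_mul (r - 1)).exp
        simpa using this
      have h2 : HasDerivAt (fun u => Real.exp (r * u)) (Real.exp (r * u) * r) u := by
        have := ((hasDerivAt_id u).const_mul r).exp
        simpa using this
      refine HasDerivAt.congr_deriv (((h1.div_const (r - 1)).const_mul t).sub (h2.div_const r)) ?_
      rw [mul_div_cancel_right₀ _ hr1', mul_div_cancel_right₀ _ hr0]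
      have : Real.exp ((r - 1) * u) = Real.exp (-u) * Real.exp (r * u) := by
        rw [← Real.exp_add]; congr 1; ring
      rw [this]
      ring
    rw [intervalIntegral.integral_eq_sub_of_hasDerivAt hder
      (Continuous.intervalIntegrable (by fun_prop) _ _)]
    have h4 : Real.exp (r * Real.log t) = t ^ r := by
      rw [Real.rpow_def_of_pos (hV t ht), mul_comm]
    have h5 : t * Real.exp ((r - 1) * Real.log t) = t ^ r := by
      have : Real.exp ((r - 1) * Real.log t) = Real.exp (r * Real.log t) * t⁻¹ := by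
        rw [sub_mul, one_mul, Real.exp_sub, Real.exp_log (hV t ht)]
        rfl
      rw [this, h4]
      field_simp [(hV t ht).ne']
    have h6 : t * (Real.exp ((r - 1) * Real.log t) / (r - 1)) = t ^ r / (r - 1) := by
      rw [← h5]; ring
    rw [h6, h4]
    field_simp
    ring

include hV hsum hρ in
/-- the Laplace transform at `1` -/
theorem EE_int_one (a b : ℝ) (hab : ∀ t ∈ V, a ≤ Real.log t ∧ Real.log t ≤ b) :
    ∫ u in a..b, EE V ν u * Real.exp (1 * u) =
      ∑ t ∈ V, ν t * (t * Real.log t) - ρ * Real.exp a := by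
  rw [EE_int_aux V ν hV hsum ρ hρ a b 1 (fun t => t * Real.log t - t * (a + 1) + Real.exp a) hab]
  · have : ∀ t ∈ V, ν t * (t * Real.log t - t * (a + 1) + Real.exp a) =
        ν t * (t * Real.log t) - (ν t * t) * (a + 1) + ν t * Real.exp a := by
      intro t _
      ring
    rw [sum_congr rfl this, sum_add_distrib, sum_sub_distrib, ← sum_mul, ← sum_mul,
      hsum, hρ]
    ring
  · intro t ht
    have hder : ∀ u ∈ Set.uIcc a (Real.log t), HasDerivAt
        (fun u => t * u - Real.exp u)
        ((t * Real.exp (-u) - 1) * Real.exp (1 * u)) u := by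
      intro u _
      refine HasDerivAt.congr_deriv (((hasDerivAt_id u).const_mul t).sub (Real.hasDerivAt_exp u)) ?_
      rw [one_mul, sub_mul, mul_assoc, ← Real.exp_add]
      simp
    rw [intervalIntegral.integral_eq_sub_of_hasDerivAt hder
      (Continuous.intervalIntegrable (by fun_prop) _ _), Real.exp_log (hV t ht)]
    ring

include hV hsum hρ in
/-- the Laplace transform at `0`, equal ranks -/
theorem EE_int_zero (a b : ℝ) (hab : ∀ t ∈ V, a ≤ Real.log t ∧ Real.log t ≤ b) (hρ0 : ρ = 0) :
    ∫ u in a..b, EE V ν u * Real.exp (0 * u) = -∑ t ∈ V, ν t * Real.log t := by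
  rw [EE_int_aux V ν hV hsum ρ hρ a b 0 (fun t => t * Real.exp (-a) - 1 - Real.log t + a) hab]
  · have : ∀ t ∈ V, ν t * (t * Real.exp (-a) - 1 - Real.log t + a) =
        (ν t * t) * Real.exp (-a) - ν t * Real.log t + ν t * (a - 1) := by
      intro t _
      ring
    rw [sum_congr rfl this, sum_add_distrib, sum_sub_distrib, ← sum_mul, ← sum_mul,
      hsum, hρ, hρ0]
    ring
  · intro t ht
    have hder : ∀ u ∈ Set.uIcc a (Real.log t), HasDerivAt
        (fun u => -(t * Real.exp (-u)) - u)
        ((t * Real.exp (-u) - 1) * Real.exp (0 * u)) u := by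
      intro u _
      have h1 : HasDerivAt (fun u => Real.exp (-u)) (-Real.exp (-u)) u := by
        have := (hasDerivAt_neg u).exp
        simpa using this
      refine HasDerivAt.congr_deriv (((h1.const_mul t).neg).sub (hasDerivAt_id u)) ?_
      simp
    rw [intervalIntegral.integral_eq_sub_of_hasDerivAt hder
      (Continuous.intervalIntegrable (by fun_prop) _ _), Real.exp_neg (Real.log t),
      Real.exp_log (hV t ht)]
    field_simp [(hV t ht).ne']
    ring

end

end Pool.Agent.H380FC
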