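import Mathlib
import Pool.Agent.H380FC.G4

/-!
# Binomial smoothing of the difference function
-/

set_option autoImplicit false

namespace Pool.Agent.H380FC

open Finset MeasureTheory Filter Topology

theorem fin_small (S : Finset ℝ) (f : ℝ → ℝ) (h : ∀ s ∈ S, 0 < f s) :
    ∃ η : ℝ, 0 < η ∧ ∀ s ∈ S, η ≤ f s := by
  classical
  induction S using Finset.induction_on with
  | empty => exact ⟨1, one_pos, by simp⟩
  | insert s S hs ih =>
    obtain ⟨η, hη, h1⟩ := ih fun t ht => h t (mem_insert_of_mem ht)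
    refine ⟨min η (f s), lt_min hη (h s (mem_insert_self _ _)), fun t ht => ?_⟩
    rcases mem_insert.1 ht with rfl | ht
    · exact min_le_right _ _
    · exact (min_le_left _ _).trans (h1 t ht)

section

variable (V : Finset ℝ) (ν : ℝ → ℝ) (hne : V.Nonempty) (hV : ∀ t ∈ V, 0 < t)
  (hsum : ∑ t ∈ V, ν t * t = 0) (hint : ∀ t ∈ V, ν t ≤ -1 ∨ 1 ≤ ν t)

include hV hsum hint in
theorem min_lt_max : V.min' hne < V.max' hne := by
  rcases (V.min'_le _ (V.max'_mem hne)).lt_or_eq with h | h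
  · exact h
  exfalso
  have h1 : ∀ t ∈ V, t = V.max' hne := fun t ht =>
    le_antisymm (V.le_max' t ht) (h ▸ V.min'_le t ht)
  have h2 : V = {V.max' hne} := by
    ext t
    constructor
    · intro ht; exact mem_singleton.2 (h1 t ht)
    · intro ht; rw [mem_singleton.1 ht]; exact V.max'_mem hne
  have h3 : ∑ t ∈ V, ν t * t = ν (V.max' hne) * V.max' hne := by
    conv_lhs => rw [h2]
    rw [sum_singleton]
  rw [hsum] at h3
  have h4 := hV _ (V.max'_mem hne)
  rcases hint _ (V.max'_mem hne) with h5 | h5 <;> nlinarith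

include hV hint in
theorem nu_max (hpos : ∀ k : ℕ, 2 ≤ k → 0 < ∑ t ∈ V, ν t * t ^ k) : 1 ≤ ν (V.max' hne) := by
  set t1 := V.max' hne with ht1
  have ht1V : t1 ∈ V := V.max'_mem hne
  have ht1p := hV t1 ht1V
  have h := lim_sign V ν (fun t => t / t1) t1 ht1V (div_self ht1p.ne')
    (fun t ht hne' => ⟨div_nonneg (hV t ht).le ht1p.le,
      (div_lt_one ht1p).2 (lt_of_le_of_ne (V.le_max' t ht) hne')⟩)
    (fun k hk => by
      have h1 : ∑ t ∈ V, ν t * (t / t1) ^ k = (∑ t ∈ V, ν t * t ^ k) / t1 ^ k := by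
        rw [sum_div]
        exact sum_congr rfl fun t _ => by rw [div_pow, mul_div_assoc]
      rw [h1]
      exact div_pos (hpos k hk) (pow_pos ht1p k))
  rcases hint t1 ht1V with h5 | h5
  · linarith
  · exact h5

include hV hint in
theorem nu_min (hpos : ∀ k : ℕ, 2 ≤ k → 0 < ∑ t ∈ V, ν t * (t⁻¹) ^ k) :
    1 ≤ ν (V.min' hne) := by
  set t0 := V.min' hne with ht0
  have ht0V : t0 ∈ V := V.min'_mem hne
  have ht0p := hV t0 ht0V
  have h := lim_sign V ν (fun t => t0 * t⁻¹) t0 ht0V (mul_inv_cancel₀ ht0p.ne')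
    (fun t ht hne' => ⟨mul_nonneg ht0p.le (inv_nonneg.2 (hV t ht).le), by
      rw [← div_eq_mul_inv, div_lt_one (hV t ht)]
      exact lt_of_le_of_ne (V.min'_le t ht) (Ne.symm hne')⟩)
    (fun k hk => by
      have h1 : ∑ t ∈ V, ν t * (t0 * t⁻¹) ^ k = t0 ^ k * ∑ t ∈ V, ν t * (t⁻¹) ^ k := by
        rw [mul_sum]
        exact sum_congr rfl fun t _ => by rw [mul_pow]; ring
      rw [h1]
      exact mul_pos (pow_pos ht0p k) (hpos k hk))
  rcases hint t0 ht0V with h5 | h5
  · linarith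
  · exact h5

include hV in
theorem exists_eta (hlt : V.min' hne < V.max' hne) : ∃ η : ℝ, 0 < η ∧ η ≤ 1 / 2 ∧
    (∀ t ∈ V, t ≠ V.max' hne → Real.log t ≤ Real.log (V.max' hne) - 3 * η) ∧
    (∀ t ∈ V, t ≠ V.min' hne → Real.log (V.min' hne) + 3 * η ≤ Real.log t) ∧
    Real.log (V.min' hne) + 3 * η ≤ Real.log (V.max' hne) - 3 * η := by
  classical
  have hlog : ∀ s ∈ V, ∀ t ∈ V, s < t → Real.log s < Real.log t := fun s hs t _ hst =>
    Real.log_lt_log (hV s hs) hst
  obtain ⟨η1, h1, h1'⟩ := fin_small (V.erase (V.max' hne))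
    (fun t => (Real.log (V.max' hne) - Real.log t) / 3) (fun t ht => by
      have ht' := mem_erase.1 ht
      have := hlog t ht'.2 _ (V.max'_mem hne) (lt_of_le_of_ne (V.le_max' t ht'.2) ht'.1)
      try beta_reduce
      linarith)
  obtain ⟨η2, h2, h2'⟩ := fin_small (V.erase (V.min' hne))
    (fun t => (Real.log t - Real.log (V.min' hne)) / 3) (fun t ht => by
      have ht' := mem_erase.1 ht
      have := hlog _ (V.min'_mem hne) t ht'.2 (lt_of_le_of_ne (V.min'_le t ht'.2) ht'.1.symm)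
      try beta_reduce
      linarith)
  have h3 := hlog _ (V.min'_mem hne) _ (V.max'_mem hne) hlt
  refine ⟨min (min η1 η2) (min (1 / 2) ((Real.log (V.max' hne) - Real.log (V.min' hne)) / 6)),
    lt_min (lt_min h1 h2) (lt_min (by norm_num) (by linarith)),
    (min_le_right _ _).trans (min_le_left _ _), ?_, ?_, ?_⟩
  · intro t ht hne'
    have h4 := h1' t (mem_erase.2 ⟨hne', ht⟩)
    have h5 : min (min η1 η2) (min (1 / 2) ((Real.log (V.max' hne) - Real.log (V.min' hne)) / 6))
      ≤ η1 := (min_le_left _ _).trans (min_le_left _ _)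
    try beta_reduce at h4
    linarith
  · intro t ht hne'
    have h4 := h2' t (mem_erase.2 ⟨hne', ht⟩)
    have h5 : min (min η1 η2) (min (1 / 2) ((Real.log (V.max' hne) - Real.log (V.min' hne)) / 6))
      ≤ η2 := (min_le_left _ _).trans (min_le_right _ _)
    try beta_reduce at h4
    linarith
  · have h5 : min (min η1 η2) (min (1 / 2) ((Real.log (V.max' hne) - Real.log (V.min' hne)) / 6))
      ≤ (Real.log (V.max' hne) - Real.log (V.min' hne)) / 6 :=
      (min_le_right _ _).trans (min_le_right _ _)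
    linarith

theorem edge_const {η : ℝ} (hη : 0 < η) : 0 < 1 - Real.exp (-η) ∧ 1 - Real.exp (-η) ≤ η ∧
    1 - Real.exp (-η) ≤ Real.exp η - 1 := by
  have h1 := Real.add_one_le_exp (-η)
  have h2 := Real.add_one_le_exp η
  have h3 : Real.exp (-η) < 1 := by
    rw [← Real.exp_zero]
    exact Real.exp_lt_exp.2 (by linarith)
  refine ⟨by linarith, by linarith, by linarith⟩

include hne hV hsum hint in
/-- equal ranks -/
theorem bin0 (hρ : ∑ t ∈ V, ν t = 0)
    (hpos : ∀ r : ℝ, r ≠ 0 → r ≠ 1 → 0 < (∑ t ∈ V, ν t * t ^ r) / (r * (r - 1)))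
    (h1 : 0 < ∑ t ∈ V, ν t * (t * Real.log t)) (h0 : 0 < -∑ t ∈ V, ν t * Real.log t) :
    ∃ (h : ℝ) (N : ℕ), 0 < h ∧
      ∀ u, 0 ≤ ∑ i ∈ range (N + 1), (N.choose i : ℝ) * EE V ν (u - i * h) := by
  have hlt := min_lt_max V ν hne hV hsum hint
  have hpow : ∀ k : ℕ, 2 ≤ k → 0 < ∑ t ∈ V, ν t * t ^ k := by
    intro k hk
    have hk2 : (2 : ℝ) ≤ k := by exact_mod_cast hk
    have h2 := hpos k (by positivity) (by linarith)
    have h3 : (0 : ℝ) < k * (k - 1) := by nlinarith
    have h4 := (div_pos_iff_of_pos_right h3).1 h2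
    simpa only [Real.rpow_natCast] using h4
  have hpow' : ∀ k : ℕ, 2 ≤ k → 0 < ∑ t ∈ V, ν t * (t⁻¹) ^ k := by
    intro k hk
    have hk2 : (2 : ℝ) ≤ k := by exact_mod_cast hk
    have h2 := hpos (-k) (by linarith) (by linarith)
    have h3 : (0 : ℝ) < -k * (-k - 1) := by nlinarith
    have h4 := (div_pos_iff_of_pos_right h3).1 h2
    have h5 : ∀ t ∈ V, ν t * t ^ (-(k : ℝ)) = ν t * (t⁻¹) ^ k := by
      intro t ht
      rw [Real.rpow_neg (hV t ht).le, Real.rpow_natCast, inv_pow]
    rwa [sum_congr rfl h5] at h4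
  have hn1 := nu_max V ν hne hV hint hpow
  have hn0 := nu_min V ν hne hV hint hpow'
  obtain ⟨η, hη, -, hηr, hηl, hηm⟩ := exists_eta V hne hV hlt
  set t1 := V.max' hne with ht1
  set t0 := V.min' hne with ht0
  set a := Real.log t0 with ha
  set b := Real.log t1 with hb
  have hρ' : ∑ t ∈ V, ν t = -0 := by rw [hρ, neg_zero]
  have hab : ∀ t ∈ V, a ≤ Real.log t ∧ Real.log t ≤ b := fun t ht =>
    ⟨Real.log_le_log (hV _ (V.min'_mem hne)) (V.min'_le t ht),
      Real.log_le_log (hV t ht) (V.le_max' t ht)⟩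
  obtain ⟨hc, hc1, hc2⟩ := edge_const hη
  have hright := EE_right V ν t1 b η (V.max'_mem hne) hb hηr
  have hleft := EE_left V ν hV hsum 0 hρ' t0 a η (V.min'_mem hne) ha hηl
  refine thmB (EE V ν) (EE_cont V ν) a b η (1 - Real.exp (-η)) hη hc hηm ?_ ?_ ?_ ?_ ?_ ?_
  · rintro u (hu | hu)
    · rw [hleft u (by linarith), max_eq_right]
      · ring
      · have := Real.one_le_exp (show 0 ≤ a - u by linarith)
        linarith
    · rw [hright u (by linarith), max_eq_right]
      · ring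
      · have := Real.exp_le_one_iff.2 (show b - u ≤ 0 by linarith)
        linarith
  · intro u hu
    rw [hleft u hu, zero_add]
    exact mul_nonneg (by linarith) (le_max_right _ _)
  · intro u hu
    rw [hleft u (by linarith [hu.2]), zero_add]
    have h2 : Real.exp (a - u) ≤ Real.exp (-η) := Real.exp_le_exp.2 (by linarith [hu.1])
    have h3 : 1 - Real.exp (-η) ≤ max (1 - Real.exp (a - u)) 0 :=
      le_max_of_le_left (by linarith)
    nlinarith
  · intro u hu
    rw [hright u hu]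
    exact mul_nonneg (by linarith) (le_max_right _ _)
  · intro u hu
    rw [hright u (by linarith [hu.1])]
    have h2 : Real.exp η ≤ Real.exp (b - u) := Real.exp_le_exp.2 (by linarith [hu.2])
    have h3 : 1 - Real.exp (-η) ≤ max (Real.exp (b - u) - 1) 0 :=
      le_max_of_le_left (by linarith)
    nlinarith
  · intro r
    by_cases hr0 : r = 0
    · rw [hr0, EE_int_zero V ν hV hsum 0 hρ' a b hab rfl]
      exact h0
    by_cases hr1 : r = 1
    · rw [hr1, EE_int_one V ν hV hsum 0 hρ' a b hab]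
      linarith
    rw [EE_int V ν hV hsum 0 hρ' a b r hab hr0 hr1]
    have := hpos r hr0 hr1
    simpa using this

end

end Pool.Agent.H380FC
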