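import Mathlib
import Pool.Agent.H380FC.G6
import Pool.Agent.H380FC.F

/-!
# The theorem of Klimesh and Turgut: sufficiency
-/

set_option autoImplicit false

namespace Pool.Agent.H380FC

open Finset

variable {ι κ α β : Type} [Fintype ι] [Fintype κ] [Fintype α] [Fintype β]

/-- back to sums of largest entries -/
theorem MajP.toMaj {v : ι → ℝ} {w : κ → ℝ} (h : MajP v w) (hv : ∀ i, 0 ≤ v i)
    (hw : ∀ j, 0 ≤ w j) : Maj v w := by
  classical
  refine ⟨fun S => ?_, h.2⟩
  rcases Nat.eq_zero_or_pos S.card with hS | hS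
  · rw [card_eq_zero] at hS
    subst hS
    exact ⟨∅, le_rfl, by simp⟩
  rcases le_or_gt (Fintype.card κ) S.card with hk | hk
  · refine ⟨univ, hk, ?_⟩
    rw [← h.2]
    exact sum_le_sum_of_subset_of_nonneg (subset_univ _) fun i _ _ => hv i
  have hne : ((univ : Finset κ).powersetCard S.card).Nonempty := by
    apply powersetCard_nonempty.2
    rw [card_univ]
    exact hk.le
  obtain ⟨T, hT, hmax⟩ := exists_max_image _ (fun T => ∑ j ∈ T, w j) hne
  have hTc : T.card = S.card := (mem_powersetCard.1 hT).2
  have hTne : T.Nonempty := card_pos.1 (by omega)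
  obtain ⟨i, hi, himin⟩ := exists_min_image T w hTne
  have hout : ∀ j, j ∉ T → w j ≤ w i := by
    intro j hj
    by_contra hc
    push Not at hc
    have hj' : j ∉ T.erase i := fun h => hj (mem_of_mem_erase h)
    have hT' : insert j (T.erase i) ∈ (univ : Finset κ).powersetCard S.card := by
      rw [mem_powersetCard]
      refine ⟨subset_univ _, ?_⟩
      rw [card_insert_of_notMem hj', card_erase_of_mem hi]
      omega
    have h1 := hmax _ hT'
    rw [sum_insert hj'] at h1
    have h2 := add_sum_erase T w hi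
    linarith
  set s := w i with hs
  have hs0 : 0 ≤ s := hw i
  have e1 : ∑ j, max (w j - s) 0 = ∑ j ∈ T, w j - T.card * s := by
    have h1 : ∑ j, max (w j - s) 0 = ∑ j ∈ T, (w j - s) := by
      rw [← sum_subset (subset_univ T) (f := fun j => max (w j - s) 0)]
      · exact sum_congr rfl fun j hj => max_eq_left (by have := himin j hj; linarith)
      · intro j _ hj
        exact max_eq_right (by have := hout j hj; linarith)
    rw [h1, sum_sub_distrib, sum_const, nsmul_eq_mul]
  refine ⟨T, hTc.le, ?_⟩
  have h1 := h.1 s hs0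
  rw [e1] at h1
  have h2 : ∑ j ∈ S, v j ≤ ∑ j, max (v j - s) 0 + S.card * s := by
    calc ∑ j ∈ S, v j ≤ ∑ j ∈ S, (max (v j - s) 0 + s) :=
          sum_le_sum fun j _ => by have := le_max_left (v j - s) 0; linarith
      _ = ∑ j ∈ S, max (v j - s) 0 + S.card * s := by
          rw [sum_add_distrib, sum_const, nsmul_eq_mul]
      _ ≤ ∑ j, max (v j - s) 0 + S.card * s := by
          have := sum_le_sum_of_subset_of_nonneg (subset_univ S)
            (f := fun j => max (v j - s) 0) fun i _ _ => le_max_right _ _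
          linarith
  rw [hTc] at h1
  linarith

open Classical in
/-- the signed multiplicity -/
noncomputable def nu (x : α → ℝ) (y : β → ℝ) (t : ℝ) : ℝ :=
  ((univ.filter (fun j => y j = t)).card : ℝ) - ((univ.filter (fun i => x i = t)).card : ℝ)

open Classical in
/-- the positive values with nonzero signed multiplicity -/
noncomputable def VV (x : α → ℝ) (y : β → ℝ) : Finset ℝ :=
  (univ.image x ∪ univ.image y).filter (fun t => 0 < t ∧ nu x y t ≠ 0)

theorem nu_int (x : α → ℝ) (y : β → ℝ) (t : ℝ) (h : nu x y t ≠ 0) :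
    nu x y t ≤ -1 ∨ 1 ≤ nu x y t := by
  classical
  unfold nu at h ⊢
  rcases Nat.lt_trichotomy (univ.filter (fun j => y j = t)).card
    (univ.filter (fun i => x i = t)).card with h1 | h1 | h1
  · left
    have : ((univ.filter (fun j => y j = t)).card : ℝ) + 1 ≤
      ((univ.filter (fun i => x i = t)).card : ℝ) := by exact_mod_cast h1
    linarith
  · exfalso
    apply h
    rw [h1]
    ring
  · right
    have : ((univ.filter (fun i => x i = t)).card : ℝ) + 1 ≤
      ((univ.filter (fun j => y j = t)).card : ℝ) := by exact_mod_cast h1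
    linarith

theorem sum_VV {x : α → ℝ} {y : β → ℝ} (hx : ∀ i, 0 ≤ x i) (hy : ∀ j, 0 ≤ y j) (F : ℝ → ℝ) :
    ∑ t ∈ VV x y, nu x y t * F t = nz F y - nz F x := by
  classical
  set I : Finset ℝ := (univ.image x ∪ univ.image y).filter (fun t => 0 < t) with hI
  have hVI : VV x y = I.filter (fun t => nu x y t ≠ 0) := by
    unfold VV
    rw [hI, filter_filter]
  have e1 : ∑ t ∈ VV x y, nu x y t * F t = ∑ t ∈ I, nu x y t * F t := by
    rw [hVI, sum_filter]
    refine sum_congr rfl fun t _ => ?_
    split_ifs with h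
    · rfl
    · push Not at h
      rw [h, zero_mul]
  have ex : nz F x = ∑ t ∈ I, ((univ.filter (fun i => x i = t)).card : ℝ) * F t := by
    unfold nz
    rw [← sum_fiberwise_of_maps_to (s := univ.filter (fun i => x i ≠ 0)) (t := I) (g := x)
      (f := fun i => F (x i)) (fun i hi => by
        rw [hI, mem_filter]
        exact ⟨mem_union_left _ (mem_image_of_mem _ (mem_univ _)),
          lt_of_le_of_ne (hx i) (mem_filter.1 hi).2.symm⟩)]
    refine sum_congr rfl fun t ht => ?_
    have ht0 : 0 < t := (mem_filter.1 ht).2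
    have e2 : (univ.filter (fun i => x i ≠ 0)).filter (fun i => x i = t) =
        univ.filter (fun i => x i = t) := by
      ext i
      simp only [mem_filter, mem_univ, true_and]
      constructor
      · rintro ⟨_, h⟩; exact h
      · intro h; exact ⟨by rw [h]; exact ht0.ne', h⟩
    rw [e2, sum_congr rfl (fun i hi => by rw [(mem_filter.1 hi).2] : ∀ i ∈ univ.filter
      (fun i => x i = t), F (x i) = F t), sum_const, nsmul_eq_mul]
  have ey : nz F y = ∑ t ∈ I, ((univ.filter (fun i => y i = t)).card : ℝ) * F t := by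
    unfold nz
    rw [← sum_fiberwise_of_maps_to (s := univ.filter (fun i => y i ≠ 0)) (t := I) (g := y)
      (f := fun i => F (y i)) (fun i hi => by
        rw [hI, mem_filter]
        exact ⟨mem_union_right _ (mem_image_of_mem _ (mem_univ _)),
          lt_of_le_of_ne (hy i) (mem_filter.1 hi).2.symm⟩)]
    refine sum_congr rfl fun t ht => ?_
    have ht0 : 0 < t := (mem_filter.1 ht).2
    have e2 : (univ.filter (fun i => y i ≠ 0)).filter (fun i => y i = t) =
        univ.filter (fun i => y i = t) := by
      ext i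
      simp only [mem_filter, mem_univ, true_and]
      constructor
      · rintro ⟨_, h⟩; exact h
      · intro h; exact ⟨by rw [h]; exact ht0.ne', h⟩
    rw [e2, sum_congr rfl (fun i hi => by rw [(mem_filter.1 hi).2] : ∀ i ∈ univ.filter
      (fun i => y i = t), F (y i) = F t), sum_const, nsmul_eq_mul]
  rw [e1, ex, ey, ← sum_sub_distrib]
  refine sum_congr rfl fun t _ => ?_
  unfold nu
  ring

theorem nz_eq_sum (F : ℝ → ℝ) (hF : F 0 = 0) (v : ι → ℝ) : nz F v = ∑ i, F (v i) := by
  classical
  unfold nz
  rw [sum_filter]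
  refine sum_congr rfl fun i _ => ?_
  split_ifs with h
  · rfl
  · push Not at h
    rw [h, hF]

theorem nz_one (v : ι → ℝ) : nz (fun _ => 1) v = rk v := by
  classical
  unfold nz rk
  simp

/-- sufficiency, on the level of the difference function -/
theorem exists_bin {x : α → ℝ} {y : β → ℝ} (hx : PV x) (hy : PV y) (h : KTc x y) :
    ∃ (h : ℝ) (N : ℕ), 0 < h ∧ ∀ u, 0 ≤ ∑ i ∈ range (N + 1),
      (N.choose i : ℝ) * EE (VV x y) (nu x y) (u - i * h) := by
  classical
  obtain ⟨h1, h2, h3, h4⟩ := h
  have hVpos : ∀ t ∈ VV x y, 0 < t := fun t ht => (mem_filter.1 ht).2.1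
  have hint : ∀ t ∈ VV x y, nu x y t ≤ -1 ∨ 1 ≤ nu x y t := fun t ht =>
    nu_int x y t (mem_filter.1 ht).2.2
  have hS := sum_VV hx.1 hy.1
  have hpow : ∀ r : ℝ, 0 < r → ∑ t ∈ VV x y, nu x y t * t ^ r =
      ∑ j, y j ^ r - ∑ i, x i ^ r := by
    intro r hr
    rw [hS (fun t => t ^ r), nz_eq_sum (fun t => t ^ r) (Real.zero_rpow hr.ne') y,
      nz_eq_sum (fun t => t ^ r) (Real.zero_rpow hr.ne') x]
  have hne : (VV x y).Nonempty := by
    by_contra hc
    rw [not_nonempty_iff_eq_empty] at hc
    have h5 := hpow 2 (by norm_num)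
    rw [hc, sum_empty] at h5
    have h6 := h1 2 (by norm_num)
    linarith
  have hsum : ∑ t ∈ VV x y, nu x y t * t = 0 := by
    rw [hS (fun t => t), nz_eq_sum _ rfl, nz_eq_sum _ rfl, hx.2, hy.2, sub_self]
  have hent : 0 < ∑ t ∈ VV x y, nu x y t * (t * Real.log t) := by
    rw [hS (fun t => t * Real.log t), nz_eq_sum _ (by simp), nz_eq_sum _ (by simp)]
    simp only [Real.negMulLog, neg_mul, sum_neg_distrib] at h2
    linarith
  have hcount : ∑ t ∈ VV x y, nu x y t = (rk y : ℝ) - rk x := by
    have h5 := hS (fun _ => 1)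
    simp only [mul_one] at h5
    rw [h5, nz_one, nz_one]
  have hpos : ∀ r : ℝ, 0 < r → r ≠ 1 →
      0 < (∑ t ∈ VV x y, nu x y t * t ^ r) / (r * (r - 1)) := by
    intro r hr hr1
    rw [hpow r hr]
    rcases lt_or_gt_of_ne hr1 with h5 | h5
    · have h6 := h3 r hr h5
      exact div_pos_of_neg_of_neg (by linarith) (by nlinarith)
    · have h6 := h1 r h5
      exact div_pos (by linarith) (by nlinarith)
  rcases h4 with h4 | ⟨h4, h5, h6⟩
  · have h7 : (rk y : ℝ) + 1 ≤ rk x := by exact_mod_cast h4
    exact bin1 (VV x y) (nu x y) hne hVpos hsum hint ((rk x : ℝ) - rk y)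
      (by rw [hcount]; ring) (by linarith) hpos hent
  · refine bin0 (VV x y) (nu x y) hne hVpos hsum hint (by rw [hcount, h4, sub_self]) ?_ hent ?_
    · intro r hr0 hr1
      rcases lt_or_gt_of_ne hr0 with h7 | h7
      · rw [hS (fun t => t ^ r)]
        have h8 := h6 r h7
        exact div_pos (by linarith) (by nlinarith)
      · exact hpos r h7 hr1
    · rw [hS Real.log]
      linarith

/-- sufficiency -/
theorem KT_suff {x : α → ℝ} {y : β → ℝ} (hx : PV x) (hy : PV y) (h : KTc x y) :
    ∃ (D : ℕ) (g : Fin D → ℝ), PV g ∧ Maj (tens x g) (tens y g) := by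
  classical
  obtain ⟨h, N, hh, hN⟩ := exists_bin hx hy h
  set Z : ℝ := ∑ T : Finset (Fin N), Real.exp (T.card * h) with hZ
  have hZ0 : 0 < Z := sum_pos (fun T _ => Real.exp_pos _) ⟨∅, mem_univ _⟩
  set c : Finset (Fin N) → ℝ := fun T => Real.exp (T.card * h) / Z with hc
  have hcpos : ∀ T, 0 < c T := fun T => div_pos (Real.exp_pos _) hZ0
  have hcPV : PV c := by
    refine ⟨fun T => (hcpos T).le, ?_⟩
    rw [hc]
    simp only []
    rw [← sum_div, ← hZ, div_self hZ0.ne']
  -- one block
  have hblock : ∀ {a : Type} [Fintype a] (v : a → ℝ), (∀ i, 0 ≤ v i) → ∀ (s : ℝ), 0 < s →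
      ∀ T, ∑ i, max (v i * c T - s) 0 = s * nz (fun t => max (Real.exp (Real.log t -
        (Real.log s + Real.log Z - T.card * h)) - 1) 0) v := by
    intro a _ v hv s hs T
    unfold nz
    rw [mul_sum, sum_filter]
    refine sum_congr rfl fun i _ => ?_
    split_ifs with hi
    · have hvi : 0 < v i := lt_of_le_of_ne (hv i) (Ne.symm hi)
      have e1 : Real.exp (Real.log (v i) - (Real.log s + Real.log Z - T.card * h)) =
          v i * c T / s := by
        have e2 : Real.log (v i) - (Real.log s + Real.log Z - T.card * h) =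
            Real.log (v i) + T.card * h - Real.log s - Real.log Z := by ring
        rw [e2, Real.exp_sub, Real.exp_sub, Real.exp_add, Real.exp_log hvi, Real.exp_log hs,
          Real.exp_log hZ0, hc]
        field_simp
      beta_reduce
      rw [e1]
      have e3 : v i * c T - s = s * (v i * c T / s - 1) := by field_simp
      rw [e3, mul_max_of_nonneg _ _ hs.le, mul_zero]
    · push Not at hi
      rw [hi, zero_mul]
      exact max_eq_right (by linarith)
  have hMP : MajP (tens x c) (tens y c) := by
    constructor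
    · intro s hs
      rcases hs.eq_or_lt with hs | hs
      · rw [← hs]
        have e1 : ∑ p, max (tens x c p - 0) 0 = 1 := by
          rw [← (hx.tens hcPV).2]
          exact sum_congr rfl fun p _ => by
            rw [sub_zero, max_eq_left ((hx.tens hcPV).1 p)]
        have e2 : ∑ p, max (tens y c p - 0) 0 = 1 := by
          rw [← (hy.tens hcPV).2]
          exact sum_congr rfl fun p _ => by
            rw [sub_zero, max_eq_left ((hy.tens hcPV).1 p)]
        rw [e1, e2]
      · have ex : ∑ p, max (tens x c p - s) 0 = ∑ T, ∑ i, max (x i * c T - s) 0 := by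
          rw [Fintype.sum_prod_type, sum_comm]
          rfl
        have ey : ∑ p, max (tens y c p - s) 0 = ∑ T, ∑ i, max (y i * c T - s) 0 := by
          rw [Fintype.sum_prod_type, sum_comm]
          rfl
        rw [ex, ey, ← sub_nonneg, ← sum_sub_distrib]
        have e3 : ∀ T : Finset (Fin N), ∑ i, max (y i * c T - s) 0 - ∑ i, max (x i * c T - s) 0 =
            s * EE (VV x y) (nu x y) (Real.log s + Real.log Z - T.card * h) := by
          intro T
          rw [hblock y hy.1 s hs T, hblock x hx.1 s hs T, ← mul_sub, ← sum_VV hx.1 hy.1]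
          rfl
        rw [sum_congr rfl fun T _ => e3 T, ← mul_sum]
        apply mul_nonneg hs.le
        have e4 : ∑ T ∈ (univ : Finset (Fin N)).powerset, EE (VV x y) (nu x y)
            (Real.log s + Real.log Z - T.card * h) = _ :=
          sum_powerset_apply_card (fun m : ℕ => EE (VV x y) (nu x y)
            (Real.log s + Real.log Z - m * h))
        rw [powerset_univ, card_univ, Fintype.card_fin] at e4
        rw [e4]
        have e5 := hN (Real.log s + Real.log Z)
        simpa only [nsmul_eq_mul] using e5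
    · rw [(hx.tens hcPV).2, (hy.tens hcPV).2]
  obtain ⟨g, hg⟩ := reindex c (rk c) le_rfl
  have hgPV := PV_of_sums hcPV hg
  exact ⟨rk c, g, hgPV, (MajP_reindex hMP hg hg).toMaj (hx.tens hgPV).1 (hy.tens hgPV).1⟩

end Pool.Agent.H380FC
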