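import Mathlib
import Pool.Agent.H380FC.F

/-!
# Chains which use several copies at once

From transformations `x^(⊗ k n) ⊗ e n → y^(⊗ l n) ⊗ e (n+1)` with `1 ≤ k n ≤ M`, `k n ≤ l n` we
construct a chain of transformations of single copies.
-/

set_option autoImplicit false

namespace Pool.Agent.H380FC

open Finset

variable {ι κ α β : Type} [Fintype ι] [Fintype κ] [Fintype α] [Fintype β]

/-- tensor powers -/
def pw (x : α → ℝ) (m : ℕ) : (Fin m → α) → ℝ := fun f => ∏ i, x (f i)

theorem sum_pw_pow (x : α → ℝ) (m k : ℕ) : ∑ f, pw x m f ^ k = (∑ a, x a ^ k) ^ m := by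
  rw [Fintype.sum_pow]
  refine sum_congr rfl fun f _ => ?_
  unfold pw
  rw [prod_pow]

theorem PV.pw {x : α → ℝ} (hx : PV x) (m : ℕ) : PV (pw x m) := by
  refine ⟨fun f => prod_nonneg fun i _ => hx.1 _, ?_⟩
  have h := sum_pw_pow x m 1
  simp only [pow_one, hx.2, one_pow] at h
  exact h

theorem MajP.trans {v : ι → ℝ} {w : κ → ℝ} {u : α → ℝ} (h1 : MajP v w) (h2 : MajP w u) :
    MajP v u :=
  ⟨fun s hs => (h1.1 s hs).trans (h2.1 s hs), h1.2.trans h2.2⟩

/-- the same moments -/
theorem MajP_of_moments {v : ι → ℝ} {w : κ → ℝ} (hv : PV v) (hw : PV w)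
    (h : ∀ k : ℕ, ∑ i, v i ^ k = ∑ j, w j ^ k) : MajP v w :=
  (maj_of_same hv.1 (same_of_pow 0 fun k _ => h k) (hv.2.trans hw.2.symm)).toP

theorem MajP_tens_left {v : ι → ℝ} {w : κ → ℝ} {z : α → ℝ} (hz : ∀ a, 0 ≤ z a) (h : MajP v w) :
    MajP (tens z v) (tens z w) := by
  constructor
  · intro s hs
    rw [Fintype.sum_prod_type, Fintype.sum_prod_type]
    refine sum_le_sum fun a _ => ?_
    simp only [tens]
    rcases (hz a).eq_or_lt with h0 | h0
    · rw [← h0]
      have e : ∀ t : ℝ, max (0 * t - s) 0 = 0 := fun t => max_eq_right (by linarith)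
      simp only [e, sum_const_zero, le_refl]
    · have e : ∀ t : ℝ, max (z a * t - s) 0 = z a * max (t - s / z a) 0 := by
        intro t
        rw [mul_max_of_nonneg _ _ h0.le, mul_sub, mul_zero, mul_div_cancel₀ _ h0.ne']
      simp only [e, ← mul_sum]
      exact mul_le_mul_of_nonneg_left (h.1 _ (div_nonneg hs h0.le)) h0.le
  · rw [Fintype.sum_prod_type, Fintype.sum_prod_type]
    simp only [tens, ← mul_sum]
    rw [h.2]

theorem MajP_drop {z : α → ℝ} (hz : PV z) {v : ι → ℝ} :
    MajP (tens z v) v := by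
  constructor
  · intro s hs
    rw [Fintype.sum_prod_type, sum_comm]
    refine sum_le_sum fun i _ => ?_
    calc ∑ a, max (tens z v (a, i) - s) 0 ≤ ∑ a, z a * max (v i - s) 0 := by
          refine sum_le_sum fun a _ => ?_
          show max (z a * v i - s) 0 ≤ _
          rw [mul_max_of_nonneg _ _ (hz.1 a), mul_zero, mul_sub]
          apply max_le_max _ le_rfl
          have h1 : z a * s ≤ 1 * s := mul_le_mul_of_nonneg_right (hz.le_one a) hs
          linarith
      _ = max (v i - s) 0 := by rw [← sum_mul, hz.2, one_mul]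
  · rw [Fintype.sum_prod_type]
    simp only [tens, ← mul_sum]
    rw [← sum_mul, hz.2, one_mul]

section
variable {x : α → ℝ} {y : β → ℝ}

/-- a step which exchanges a stored copy of `y` for a copy of `x` -/
theorem step_store (hx : PV x) (hy : PV y) {e : ι → ℝ} (he : PV e) (a a' b : ℕ)
    (ha : a' = a + 1) :
    MajP (tens x (tens (pw x a) (tens (pw y (b + 1)) e)))
      (tens y (tens (pw x a') (tens (pw y b) e))) := by
  apply MajP_of_moments
  · exact hx.tens ((hx.pw a).tens ((hy.pw (b + 1)).tens he))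
  · exact hy.tens ((hx.pw a').tens ((hy.pw b).tens he))
  · intro k
    simp only [sum_tens_pow, sum_pw_pow, ha]
    ring

/-- a step which uses a transformation of `k` copies -/
theorem step_convert (hx : PV x) (hy : PV y) {e : ι → ℝ} (he : PV e) {e' : κ → ℝ} (he' : PV e')
    (k l m m' : ℕ) (hkl : k + 1 ≤ l) (hm : m = m' + k)
    (h : MajP (tens (pw x (k + 1)) e) (tens (pw y l) e')) :
    MajP (tens x (tens (pw x m) (tens (pw y 0) e)))
      (tens y (tens (pw x m') (tens (pw y k) e'))) := by
  have h1 : MajP (tens x (tens (pw x m) (tens (pw y 0) e)))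
      (tens (pw x m') (tens (pw x (k + 1)) e)) := by
    apply MajP_of_moments
    · exact hx.tens ((hx.pw m).tens ((hy.pw 0).tens he))
    · exact (hx.pw m').tens ((hx.pw (k + 1)).tens he)
    · intro j
      simp only [sum_tens_pow, sum_pw_pow, hm]
      ring
  have h2 := MajP_tens_left (hx.pw m').1 h
  have h3 : MajP (tens (pw x m') (tens (pw y l) e'))
      (tens (pw y (l - (k + 1))) (tens y (tens (pw x m') (tens (pw y k) e')))) := by
    obtain ⟨c, rfl⟩ := Nat.exists_eq_add_of_le hkl
    rw [Nat.add_sub_cancel_left]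
    apply MajP_of_moments
    · exact (hx.pw m').tens ((hy.pw _).tens he')
    · exact (hy.pw c).tens (hy.tens ((hx.pw m').tens ((hy.pw k).tens he')))
    · intro j
      simp only [sum_tens_pow, sum_pw_pow]
      ring
  have h4 : MajP (tens (pw y (l - (k + 1))) (tens y (tens (pw x m') (tens (pw y k) e'))))
      (tens y (tens (pw x m') (tens (pw y k) e'))) :=
    MajP_drop (hy.pw _)
  exact ((h1.trans h2).trans h3).trans h4

end

/-- the schedule: stored copies of `y`, number of the current catalyst -/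
def sched (k : ℕ → ℕ) : ℕ → ℕ × ℕ
  | 0 => (0, 0)
  | t + 1 => if (sched k t).1 = 0 then (k (sched k t).2 - 1, (sched k t).2 + 1)
      else ((sched k t).1 - 1, (sched k t).2)

theorem sched_le (k : ℕ → ℕ) (M : ℕ) (hk : ∀ n, k n ≤ M) (t : ℕ) : (sched k t).1 ≤ M - 1 := by
  induction t with
  | zero => simp [sched]
  | succ t ih =>
    rw [sched]
    split_ifs
    · have := hk (sched k t).2
      simp only
      omega
    · simp only
      omega

/-- chains which use several copies at once -/
theorem multi_chain_conditions {x : α → ℝ} {y : β → ℝ} (hx : PV x) (hy : PV y) {γ : ℕ → Type}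
    [∀ n, Fintype (γ n)] {e : ∀ n, γ n → ℝ} (he : ∀ n, PV (e n)) (M : ℕ) (k l : ℕ → ℕ)
    (hk : ∀ n, 1 ≤ k n) (hkM : ∀ n, k n ≤ M) (hkl : ∀ n, k n ≤ l n)
    (hm : ∀ n, MajP (tens (pw x (k n)) (e n)) (tens (pw y (l n)) (e (n + 1)))) :
    SameC x y ∨ KTc x y := by
  have key : ∀ p q : ℕ × ℕ, p.1 ≤ M - 1 →
      q = (if p.1 = 0 then (k p.2 - 1, p.2 + 1) else (p.1 - 1, p.2)) →
      MajP (tens x (tens (pw x (M - 1 - p.1)) (tens (pw y p.1) (e p.2))))
        (tens y (tens (pw x (M - 1 - q.1)) (tens (pw y q.1) (e q.2)))) := by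
    rintro ⟨b, i⟩ q hle hq
    simp only at hle hq
    rcases Nat.eq_zero_or_pos b with h0 | h0
    · subst h0
      rw [if_pos rfl] at hq
      have h1 := hk i
      have h2 := hkM i
      have h3 := hkl i
      have h4 := hm i
      obtain ⟨c, hc⟩ : ∃ c, k i = c + 1 := ⟨k i - 1, by omega⟩
      rw [hc] at h4
      rw [hc, Nat.add_sub_cancel] at hq
      subst hq
      exact step_convert hx hy (he i) (he (i + 1)) c (l i) (M - 1) (M - 1 - c) (by omega)
        (by omega) h4
    · rw [if_neg (by omega)] at hq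
      obtain ⟨c, rfl⟩ : ∃ c, b = c + 1 := ⟨b - 1, by omega⟩
      rw [Nat.add_sub_cancel] at hq
      subst hq
      exact step_store hx hy (he i) (M - 1 - (c + 1)) (M - 1 - c) c (by omega)
  exact chain_conditions (γ := fun t => (Fin (M - 1 - (sched k t).1) → α) ×
      ((Fin (sched k t).1 → β) × γ (sched k t).2))
    (e := fun t => tens (pw x (M - 1 - (sched k t).1)) (tens (pw y (sched k t).1)
      (e (sched k t).2))) hx hy
    (fun t => (hx.pw _).tens ((hy.pw _).tens (he _)))
    (fun t => key (sched k t) (sched k (t + 1)) (sched_le k M hkM t) rfl)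

end Pool.Agent.H380FC
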